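import Pool.Agent.MP_aa180b_lc.H22.Step

/-! The construction of a Borel array from a family of names. -/

set_option autoImplicit false

namespace Pool.Agent.MP_aa180b_lc.H22

open Filter Function Clone

variable {C : Clone Nd} {R : ℕ → ℕ → Prop} {q : ℕ → ℕ} {k : ℕ}

theorem dom_mono {k j f f' : ℕ} (h : f ≤ f') {v : Nd} (hv : v ∈ Dom k j f) : v ∈ Dom k j f' := by
  rcases mem_dom.1 hv with h1 | h1
  exacts [mem_dom.2 (Or.inl h1), mem_dom.2 (Or.inr ⟨h1.1, by omega⟩)]

theorem substeps (hk : 2 ≤ k) (hq : C.Ns q) (hq' : NonStd q) (hR : ∀ n, R (q n) (q (n + 1)))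
    (hUp : ∀ j f A, C.NmP fun _ e => Up R k j f A e) {j : ℕ} {st : Nd → St}
    (h : Inv C R q k j 0 st) (f : ℕ) :
    ∃ st', Inv C R q k j (f + 1) st' ∧ ∀ v ∈ Dom k j 0, Dec C (st' v) (st v) := by
  induction f with
  | zero => exact substep hk hq hq' hR hUp h
  | succ f ih =>
    obtain ⟨s1, h1, h2⟩ := ih
    obtain ⟨s2, h3, h4⟩ := substep hk hq hq' hR hUp h1
    exact ⟨s2, h3, fun v hv => (h4 v (dom_mono (by omega) hv)).trans (h2 v hv)⟩

theorem tl_erase {j : ℕ} {s : Finset ℕ} (hs : s ⊆ Finset.range (j + 1)) :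
    tl (s.erase j) = (tl s).erase j := by
  ext x
  simp only [tl, Finset.mem_filter, Finset.mem_erase]
  constructor
  · rintro ⟨⟨h1, h2⟩, y, h3, h4⟩
    exact ⟨h1, h2, y, h3.2, h4⟩
  · rintro ⟨h1, h2, y, h3, h4⟩
    refine ⟨⟨h1, h2⟩, y, ⟨?_, h3⟩, h4⟩
    have := Finset.mem_range.1 (hs h2)
    omega

theorem mem_tl {j : ℕ} {s : Finset ℕ} (hs : s ⊆ Finset.range (j + 1)) (hj : j ∈ s) :
    j ∈ tl s ↔ s.erase j ≠ ∅ := by
  simp only [tl, Finset.mem_filter, hj, true_and, ← Finset.nonempty_iff_ne_empty]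
  constructor
  · rintro ⟨y, h1, h2⟩
    exact ⟨y, Finset.mem_erase.2 ⟨by omega, h1⟩⟩
  · rintro ⟨y, hy⟩
    have h1 := Finset.mem_erase.1 hy
    have := Finset.mem_range.1 (hs h1.2)
    exact ⟨y, h1.2, by omega⟩

theorem tl_eq_empty {j : ℕ} {s : Finset ℕ} (h : s.erase j = ∅) : tl s = ∅ := by
  have h1 : ∀ x ∈ s, x = j := fun x hx => by
    by_contra h2
    have : x ∈ s.erase j := Finset.mem_erase.2 ⟨h2, hx⟩
    simp [h] at this
  refine Finset.filter_eq_empty_iff.2 ?_
  rintro x hx ⟨y, hy, h2⟩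
  have := h1 x hx
  have := h1 y hy
  omega

/-- merging the old forest and the new copy -/
def mrg {α : Type} (j : ℕ) (old new : Nd → α) (v : Nd) : α :=
  if j ∈ v.1 then new (v.1.erase j, v.2) else old v

theorem stage (hk : 2 ≤ k) (hq : C.Ns q) (hq' : NonStd q) (hR : ∀ n, R (q n) (q (n + 1)))
    (hUp : ∀ j f A, C.NmP fun _ e => Up R k j f A e) {j : ℕ} {st : Nd → St}
    (h : Inv C R q k j 0 st) :
    ∃ st', Inv C R q k (j + 1) 0 st' ∧ (∀ v ∈ Dom k j 0, st' v = st v) ∧
      ∀ v ∈ Dom k j 0, Dec C (st' (insert j v.1, v.2)) (st v) := by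
  obtain ⟨s1, h1, h2⟩ := substeps hk hq hq' hR hUp h (k - 1)
  rw [show k - 1 + 1 = k by omega] at h1
  have hj : ∀ v ∈ Dom k j 0, j ∉ v.1 := fun v hv h3 => by
    rcases mem_dom.1 hv with h4 | h4
    · simpa using h4.2.1 h3
    · omega
  have hA : ∀ v ∈ Dom k (j + 1) 0, j ∈ v.1 → (v.1.erase j, v.2) ∈ Dom k j k := fun v hv _ => by
    rcases mem_dom.1 hv with h4 | h4
    · by_cases h5 : v.1.erase j = ∅
      · exact mem_dom.2 (Or.inr ⟨h5, h4.2.2⟩)
      · refine mem_dom.2 (Or.inl ⟨h5, fun x hx => ?_, h4.2.2⟩)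
        have h6 := Finset.mem_erase.1 hx
        have := Finset.mem_range.1 (h4.2.1 h6.2)
        exact Finset.mem_range.2 (by omega)
    · omega
  have hB : ∀ v ∈ Dom k (j + 1) 0, j ∉ v.1 → v ∈ Dom k j 0 := fun v hv h3 => by
    rcases mem_dom.1 hv with h4 | h4
    · refine mem_dom.2 (Or.inl ⟨h4.1, fun x hx => ?_, h4.2.2⟩)
      have := Finset.mem_range.1 (h4.2.1 hx)
      have : x ≠ j := fun h => h3 (h ▸ hx)
      exact Finset.mem_range.2 (by omega)
    · omega
  refine ⟨mrg j st s1, ⟨fun v hv => ?_, ?_⟩, fun v hv => if_neg (hj v hv), fun v hv => ?_⟩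
  · unfold mrg
    split_ifs with h3
    · intro E m h4
      have := h1.1 _ (hA v hv h3) E m h4
      simpa using this
    · exact h.1 v (hB v hv h3)
  · filter_upwards [h.2, h1.2] with n ⟨L, h3, h4⟩ ⟨L', h5, h6⟩
    refine ⟨mrg j L L', by simpa [mrg] using h3, fun v hv => ?_⟩
    by_cases h7 : j ∈ v.1
    · obtain ⟨h8, h9⟩ := h6 _ (hA v hv h7)
      have h10 := (mem_dom.1 hv).resolve_right (by omega)
      refine ⟨?_, by simpa [mrg, h7] using h9⟩
      have h11 : mrg j L L' (par k v) = L' (par k (v.1.erase j, v.2)) := by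
        by_cases h12 : v.2 + 1 = k
        · by_cases h13 : v.1.erase j = ∅
          · simp [mrg, par, h12, h10.1, h13, tl_eq_empty h13, h3, h5]
          · simp [mrg, par, h12, h10.1, h13, mem_tl h10.2.1 h7, tl_erase h10.2.1]
        · simp [mrg, par, h12, h7]
      rw [h11]
      simpa [mrg, h7] using h8
    · obtain ⟨h8, h9⟩ := h4 _ (hB v hv h7)
      refine ⟨?_, by simpa [mrg, h7] using h9⟩
      have h11 : j ∉ (par k v).1 := by
        unfold par
        split_ifs
        exacts [fun h => h7 (tl_subset _ h), h7]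
      simpa [mrg, h7, h11] using h8
  · simpa [mrg, Finset.erase_insert (hj v hv)] using h2 v hv

theorem exists_seq (hk : 2 ≤ k) (hq : C.Ns q) (hq' : NonStd q) (hR : ∀ n, R (q n) (q (n + 1)))
    (hUp : ∀ j f A, C.NmP fun _ e => Up R k j f A e) :
    ∃ st : ℕ → Nd → St, ∀ j, Inv C R q k j 0 (st j) ∧ (∀ v ∈ Dom k j 0, st (j + 1) v = st j v) ∧
      ∀ v ∈ Dom k j 0, Dec C (st (j + 1) (insert j v.1, v.2)) (st j v) := by
  have h0 : Inv C R q k 0 0 fun _ => Sum.inl 0 := by
    have : ∀ v, v ∉ Dom k 0 0 := fun v hv => by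
      rcases mem_dom.1 hv with h | h
      · exact h.1 (by simpa using h.2.1)
      · omega
    exact ⟨fun v hv => absurd hv (this v),
      Eventually.of_forall fun n => ⟨fun _ => q n, rfl, fun v hv => absurd hv (this v)⟩⟩
  choose nx h1 h2 using fun j (s : {st // Inv C R q k j 0 st}) => stage hk hq hq' hR hUp s.2
  let S : ∀ j, {st // Inv C R q k j 0 st} := fun j =>
    Nat.rec ⟨_, h0⟩ (fun j s => ⟨nx j s, h1 j s⟩) j
  exact ⟨fun j => (S j).1, fun j => ⟨(S j).2, h2 j (S j)⟩⟩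

open Classical in
/-- the elements of `z` below `j` -/
noncomputable def nd (z : ℕ → ℕ) (j : ℕ) : Finset ℕ := (Finset.range j).filter fun x => ∃ m, z m = x

theorem mem_nd {z : ℕ → ℕ} {j x : ℕ} : x ∈ nd z j ↔ x < j ∧ ∃ m, z m = x := by simp [nd]

theorem nd_succ_pos {z : ℕ → ℕ} {j : ℕ} (h : ∃ m, z m = j) : nd z (j + 1) = insert j (nd z j) := by
  ext x
  simp only [mem_nd, Finset.mem_insert]
  constructor
  · rintro ⟨h1, h2⟩
    by_cases h3 : x = j
    exacts [Or.inl h3, Or.inr ⟨by omega, h2⟩]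
  · rintro (rfl | ⟨h1, h2⟩)
    exacts [⟨by omega, h⟩, ⟨by omega, h2⟩]

theorem nd_succ_neg {z : ℕ → ℕ} {j : ℕ} (h : ¬ ∃ m, z m = j) : nd z (j + 1) = nd z j := by
  ext x
  simp only [mem_nd]
  constructor
  · rintro ⟨h1, h2⟩
    have : x ≠ j := fun h3 => h (h3 ▸ h2)
    exact ⟨by omega, h2⟩
  · rintro ⟨h1, h2⟩
    exact ⟨by omega, h2⟩

theorem tl_nd {z : ℕ → ℕ} (hz : StrictMono z) (j : ℕ) : tl (nd z j) = nd (z ∘ Nat.succ) j := by
  ext x
  simp only [tl, Finset.mem_filter, mem_nd, comp]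
  constructor
  · rintro ⟨⟨h1, m, rfl⟩, y, ⟨-, m', rfl⟩, h2⟩
    have := hz.lt_iff_lt.1 h2
    exact ⟨h1, m - 1, congrArg z (by omega)⟩
  · rintro ⟨h1, m, rfl⟩
    have := hz (Nat.succ_pos m)
    exact ⟨⟨h1, _, rfl⟩, z 0, ⟨by omega, 0, rfl⟩, this⟩

theorem nd_mem {z : ℕ → ℕ} {j i : ℕ} (h : z 0 < j) (hi : i < k) : (nd z j, i) ∈ Dom k j 0 :=
  mem_dom.2 (Or.inl ⟨Finset.ne_empty_of_mem (mem_nd.2 ⟨h, 0, rfl⟩),
    fun _ hx => Finset.mem_range.2 (mem_nd.1 hx).1, hi⟩)

theorem lt_of_nd_ne {z : ℕ → ℕ} (hz : StrictMono z) {j : ℕ} (h : nd z j ≠ ∅) : z 0 < j := by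
  obtain ⟨x, hx⟩ := Finset.nonempty_iff_ne_empty.2 h
  obtain ⟨h1, m, rfl⟩ := mem_nd.1 hx
  exact (hz.monotone (Nat.zero_le m)).trans_lt h1

theorem measurable_nd (j : ℕ) (g : Finset ℕ → ℕ) : Measurable fun z : ℕ → ℕ => g (nd z j) := by
  let : MeasurableSpace (Finset ℕ) := ⊤
  refine (measurable_from_top (f := g)).comp (measurable_to_countable' fun s => ?_)
  have : (fun z : ℕ → ℕ => nd z j) ⁻¹' {s} = {z | ∀ x, (x < j ∧ ∃ m, z m = x) ↔ x ∈ s} := by
    ext z
    simp [Finset.ext_iff, mem_nd]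
  rw [this]
  refine measurableSet_setOfPred.2 (Measurable.forall fun x => Measurable.iff
    (measurable_const.and (Measurable.exists fun m => ?_)) measurable_const)
  exact (measurable_from_top (f := fun y : ℕ => y = x)).comp (measurable_pi_apply m)

theorem measurable_sInf {X : Type*} [MeasurableSpace X] {p : ℕ → X → Prop}
    (hp : ∀ j, Measurable (p j)) : Measurable fun x => sInf {j | p j x} := by
  refine measurable_to_countable' fun m => ?_
  have : (fun x => sInf {j | p j x}) ⁻¹' {m} =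
      {x | (p m x ∧ ∀ j, j < m → ¬ p j x) ∨ (m = 0 ∧ ∀ j, ¬ p j x)} := by
    ext x
    simp only [Set.mem_preimage, Set.mem_singleton_iff, Set.mem_ofPred_eq]
    by_cases h : ∃ j, p j x
    · constructor
      · rintro rfl
        exact Or.inl ⟨Nat.sInf_mem h, fun j hj => Nat.notMem_of_lt_sInf hj⟩
      · rintro (⟨h1, h2⟩ | ⟨-, h2⟩)
        · refine le_antisymm (Nat.sInf_le h1) (not_lt.1 fun h3 => h2 _ h3 (Nat.sInf_mem h))
        · exact absurd h (not_exists.2 h2)
    · have h1 : {j | p j x} = ∅ := Set.eq_empty_iff_forall_notMem.2 (not_exists.1 h)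
      rw [h1, Nat.sInf_empty]
      have h2 := not_exists.1 h
      simp [h2, eq_comm]
  rw [this]
  exact measurableSet_setOfPred.2 (((hp m).and (Measurable.forall fun j =>
    measurable_const.imp (hp j).not)).or (measurable_const.and (Measurable.forall fun j => (hp j).not)))

theorem measurable_at {X Y : Type*} [MeasurableSpace X] [MeasurableSpace Y] {g : ℕ → X → Y}
    (hg : ∀ j, Measurable (g j)) {J : X → ℕ} (hJ : Measurable J) :
    Measurable fun x => g (J x) x :=
  (measurable_from_prod_countable_right (f := fun p : ℕ × X => g p.1 p.2) hg).comp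
    (hJ.prodMk measurable_id)

/-- the value recorded at a node -/
def val (st : Nd → St) (v : Nd) : ℕ :=
  if v.1 = ∅ then 0 else Sum.elim (fun c => c + 1) (fun _ => 0) (st v)

theorem build (hk : 2 ≤ k) (hq : C.Ns q) (hq' : NonStd q) (hR : ∀ n, R (q n) (q (n + 1)))
    (hUp : ∀ j f A, C.NmP fun _ e => Up R k j f A e) :
    ∃ a : (ℕ → ℕ) → ℕ → ℕ, Measurable a ∧ ∀ z, StrictMono z →
      (∀ m, R (a z m) (a z (m + 1))) ∧ a (z ∘ Nat.succ) = fun m => a z (m + k) := by
  obtain ⟨st, hst⟩ := exists_seq hk hq hq' hR hUp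
  have hmono : ∀ z : ℕ → ℕ, ∀ i < k, ∀ j, z 0 < j → ∀ j', j ≤ j' →
      st j' (nd z j', i) = st j (nd z j, i) ∨ Dec C (st j' (nd z j', i)) (st j (nd z j, i)) := by
    intro z i hi j hj j' hj'
    induction j', hj' using Nat.le_induction with
    | base => exact Or.inl rfl
    | succ j' h1 ih =>
      have h2 := nd_mem (k := k) (hj.trans_le h1) hi
      by_cases h3 : ∃ m, z m = j'
      · have h4 := (hst j').2.2 _ h2
        rw [nd_succ_pos h3]
        rcases ih with ih | ih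
        exacts [Or.inr (ih ▸ h4), Or.inr (h4.trans ih)]
      · rw [nd_succ_neg h3, (hst j').2.1 _ h2]
        exact ih
  have hfix : ∀ z : ℕ → ℕ, StrictMono z → ∀ i < k, ∀ a : St, ∀ j, z 0 < j → st j (nd z j, i) = a →
      ∃ j c, z 0 < j ∧ st j (nd z j, i) = Sum.inl c := by
    intro z hz i hi a
    induction a using (wf_stLt C).transGen.induction with
    | _ a ih =>
      intro j hj ha
      have h1 : j ≤ z j := hz.id_le j
      have h2 := (hst (z j)).2.2 _ (nd_mem (k := k) (hj.trans_le h1) hi)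
      rw [← nd_succ_pos ⟨j, rfl⟩] at h2
      have h3 : Dec C (st (z j + 1) (nd z (z j + 1), i)) a := by
        rcases hmono z i hi j hj _ h1 with h3 | h3
        exacts [ha ▸ h3 ▸ h2, ha ▸ h2.trans h3]
      rcases h3 with ⟨c, h3, -⟩ | h3
      · exact ⟨_, c, by omega, h3⟩
      · exact ih _ h3 _ (by omega) rfl
  let J : ℕ → (ℕ → ℕ) → ℕ := fun i z => sInf {j | val (st j) (nd z j, i) ≠ 0}
  let f : ℕ → (ℕ → ℕ) → ℕ := fun i z => val (st (J i z)) (nd z (J i z), i) - 1
  have hf : ∀ i, Measurable (f i) := fun i =>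
    measurable_at (g := fun j z => val (st j) (nd z j, i) - 1)
      (fun j => measurable_nd j fun s => val (st j) (s, i) - 1)
      (measurable_sInf fun j => (measurable_from_top (f := fun x : ℕ => x ≠ 0)).comp
        (measurable_nd j fun s => val (st j) (s, i)))
  have hspec : ∀ z : ℕ → ℕ, StrictMono z → ∀ i < k,
      ∀ᶠ j in atTop, st j (nd z j, i) = Sum.inl (f i z) := by
    intro z hz i hi
    obtain ⟨j, c, h1, h2⟩ := hfix z hz i hi _ (z 0 + 1) (by omega) rfl
    have h3 : val (st (J i z)) (nd z (J i z), i) ≠ 0 :=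
      Nat.sInf_mem (s := {j | val (st j) (nd z j, i) ≠ 0}) ⟨j, by
        have := (mem_dom.1 (nd_mem (k := k) h1 hi)).resolve_right (by omega)
        simp [val, this.1, h2]⟩
    have h4 : nd z (J i z) ≠ ∅ := fun h => h3 (by simp [val, h])
    have h5 : st (J i z) (nd z (J i z), i) = Sum.inl (f i z) := by
      simp only [f]
      rcases hs : st (J i z) (nd z (J i z), i) with c | p
      · simp [val, h4, hs]
      · simp [val, hs] at h3
    filter_upwards [eventually_ge_atTop (J i z)] with j hj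
    rcases hmono z i hi _ (lt_of_nd_ne hz h4) j hj with h6 | h6
    · rw [h6, h5]
    · rw [h5] at h6; exact h6.eq_of_inl
  have hedge : ∀ z : ℕ → ℕ, StrictMono z → ∀ i < k,
      R (f i z) (if i + 1 = k then f 0 (z ∘ Nat.succ) else f (i + 1) z) := by
    intro z hz i hi
    have hz' : StrictMono (z ∘ Nat.succ) := hz.comp fun _ _ h => Nat.succ_lt_succ h
    by_cases h1 : i + 1 = k
    · obtain ⟨j, h2, h3, h4⟩ := ((hspec z hz i hi).and ((hspec _ hz' 0 (by omega)).and
        (eventually_gt_atTop (z 1)))).exists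
      have h5 : z 0 < j := (hz (by omega)).trans h4
      obtain ⟨n, L, -, h6⟩ := (hst j).1.2.exists
      have h7 := h6 _ (nd_mem h5 hi)
      have h8 := h6 _ (nd_mem (z := z ∘ Nat.succ) (i := 0) h4 (by omega))
      have h9 := (mem_dom.1 (nd_mem (k := k) h5 hi)).resolve_right (by omega)
      rw [h2] at h7
      rw [h3] at h8
      simp only [par, h1, ne_eq, ok, tl_nd hz] at h7 h8 h9
      simp only [h9.1, not_false_iff, and_self, if_true] at h7
      rw [if_pos h1, ← h7.2, ← h8.2]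
      exact h7.1
    · obtain ⟨j, h2, h3, h5⟩ := ((hspec z hz i hi).and ((hspec z hz (i + 1) (by omega)).and
        (eventually_gt_atTop (z 0)))).exists
      obtain ⟨n, L, -, h6⟩ := (hst j).1.2.exists
      have h7 := h6 _ (nd_mem h5 hi)
      have h8 := h6 _ (nd_mem (i := i + 1) h5 (by omega))
      rw [h2] at h7
      rw [h3] at h8
      simp only [par, h1, false_and, if_false, ok] at h7 h8
      rw [if_neg h1, ← h7.2, ← h8.2]
      exact h7.1
  refine ⟨fun z m => f (m % k) fun n => z (n + m / k), ?_, fun z hz => ⟨fun m => ?_, ?_⟩⟩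
  · exact measurable_pi_lambda _ fun m => (hf _).comp
      (measurable_pi_lambda _ fun n => measurable_pi_apply _)
  · have hk0 : 0 < k := by omega
    have h1 := hedge (fun n => z (n + m / k)) (fun a b h => hz (by omega)) (m % k)
      (Nat.mod_lt _ hk0)
    have h2 := Nat.mod_add_div m k
    beta_reduce
    split_ifs at h1 with h3
    · have h4 : m + 1 = k * (m / k + 1) := by rw [Nat.mul_succ]; omega
      have h5 : (m + 1) % k = 0 := by rw [h4]; exact Nat.mul_mod_right _ _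
      have h6 : (m + 1) / k = m / k + 1 := by rw [h4]; exact Nat.mul_div_cancel_left _ hk0
      rw [h5, h6]
      convert h1 using 2
      funext n
      exact congrArg z (by simp only [Nat.succ_eq_add_one]; omega)
    · have h4 := Nat.mod_lt m hk0
      have h5 : (m + 1) / k = m / k ∧ (m + 1) % k = m % k + 1 :=
        (Nat.div_mod_unique hk0).2 ⟨by omega, by omega⟩
      rw [h5.1, h5.2]
      exact h1
  · funext m
    have hk0 : 0 < k := by omega
    simp only [Nat.add_mod_right, Nat.add_div_right _ hk0]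
    rfl

end Pool.Agent.MP_aa180b_lc.H22
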