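import Mathlib

/-! Families of named functions (time, environment) closed under a few operations, their cuts,
isomorphisms and ties between cuts. -/

set_option autoImplicit false

namespace Pool.Agent.MP_aa180b_lc.H22

open Filter Function

/-- truncated minimum -/
noncomputable def tmin (p : ℕ → Prop) (M : ℕ) : ℕ := sInf {v | p v ∨ v = M}

theorem tmin_le (p : ℕ → Prop) (M : ℕ) : tmin p M ≤ M := Nat.sInf_le (Or.inr rfl)

theorem tmin_le_of {p : ℕ → Prop} {v : ℕ} (M : ℕ) (h : p v) : tmin p M ≤ v :=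
  Nat.sInf_le (Or.inl h)

theorem tmin_spec {p : ℕ → Prop} {M : ℕ} (h : tmin p M < M) : p (tmin p M) := by
  have : tmin p M ∈ {v | p v ∨ v = M} := Nat.sInf_mem ⟨M, Or.inr rfl⟩
  rcases this with h1 | h1
  · exact h1
  · omega

theorem not_of_lt_tmin {p : ℕ → Prop} {M v : ℕ} (h : v < tmin p M) : ¬ p v := fun hv =>
  absurd (tmin_le_of M hv) (by omega)

theorem tmin_anti {p p' : ℕ → Prop} (M : ℕ) (h : ∀ v, p v → p' v) : tmin p' M ≤ tmin p M := by
  rcases (tmin_le p M).lt_or_eq with h1 | h1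
  · exact tmin_le_of M (h _ (tmin_spec h1))
  · rw [h1]; exact tmin_le _ _

theorem ev_succ {p : ℕ → Prop} (h : ∀ᶠ n in atTop, p n) : ∀ᶠ n in atTop, p (n + 1) :=
  (tendsto_add_atTop_nat 1).eventually h

theorem ev_add {p : ℕ → Prop} (h : ∀ᶠ n in atTop, p n) (m : ℕ) : ∀ᶠ n in atTop, p (n + m) :=
  (tendsto_add_atTop_nat m).eventually h

theorem ev_of_succ {p : ℕ → Prop} (h : ∀ᶠ n in atTop, p (n + 1)) : ∀ᶠ n in atTop, p n := by
  obtain ⟨N, hN⟩ := eventually_atTop.1 h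
  refine eventually_atTop.2 ⟨N + 1, fun n hn => ?_⟩
  obtain ⟨m, rfl⟩ : ∃ m, n = m + 1 := ⟨n - 1, by omega⟩
  exact hN m (by omega)

theorem ev_false (h : ∀ᶠ _ : ℕ in atTop, False) : False := by
  obtain ⟨_, h⟩ := h.exists
  exact h

/-- eventually strictly increasing -/
def NonStd (c : ℕ → ℕ) : Prop := ∀ᶠ n in atTop, c n < c (n + 1)

theorem NonStd.ge {c : ℕ → ℕ} (h : NonStd c) (k : ℕ) : ∀ᶠ n in atTop, k ≤ c n := by
  obtain ⟨N, hN⟩ := eventually_atTop.1 h
  have : ∀ m, m ≤ c (N + m) := by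
    intro m
    induction m with
    | zero => omega
    | succ m ih => have := hN (N + m) (by omega); rw [← Nat.add_assoc]; omega
  refine eventually_atTop.2 ⟨N + k, fun n hn => ?_⟩
  obtain ⟨m, rfl⟩ : ∃ m, n = N + m := ⟨n - N, by omega⟩
  have := this m
  omega

theorem NonStd.le_add {c : ℕ → ℕ} (h : NonStd c) (m m' : ℕ) (hm : m ≤ m') :
    ∀ᶠ n in atTop, c (n + m) ≤ c (n + m') := by
  induction m', hm using Nat.le_induction with
  | base => simp
  | succ m' _ ih =>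
    filter_upwards [ih, ev_add h m'] with n h1 h2
    rw [← Nat.add_assoc]; omega

theorem ev_const_of_anti {c : ℕ → ℕ} (h : ∀ᶠ n in atTop, c (n + 1) ≤ c n) :
    ∃ k, ∀ᶠ n in atTop, c n = k := by
  obtain ⟨N, hN⟩ := eventually_atTop.1 h
  have h1 : ∀ m, ∀ n ≥ N, c n ≤ m → ∃ k, ∀ᶠ n in atTop, c n = k := by
    intro m
    induction m using Nat.strong_induction_on with
    | _ m ih =>
      intro n hn hc
      by_cases h2 : ∀ n' ≥ n, c n' = c n
      · exact ⟨c n, eventually_atTop.2 ⟨n, h2⟩⟩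
      · push Not at h2
        obtain ⟨n', hn', h2⟩ := h2
        have h3 : ∀ n' ≥ n, c n' ≤ c n := by
          intro n' hn'
          induction n', hn' using Nat.le_induction with
          | base => exact le_rfl
          | succ n' h4 ih' => exact (hN n' (by omega)).trans ih'
        have := h3 n' hn'
        exact ih (c n') (by omega) n' (by omega) le_rfl
  exact h1 _ N le_rfl le_rfl

/-- a family of named functions of time and environment -/
structure Clone (ι : Type) [DecidableEq ι] where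
  Nm : (ℕ → (ι → ℕ) → ℕ) → Prop
  var : ∀ i, Nm fun _ e => e i
  const : ∀ c, Nm fun _ _ => c
  add : ∀ {F G}, Nm F → Nm G → Nm fun n e => F n e + G n e
  sub : ∀ {F G}, Nm F → Nm G → Nm fun n e => F n e - G n e
  upd : ∀ {F G} (i : ι), Nm F → Nm G → Nm fun n e => F n (update e i (G n e))
  shift : ∀ {F}, Nm F → Nm fun n e => F (n + 1) e
  mu : ∀ {F G} (i : ι), Nm F → Nm G →
    Nm fun n e => tmin (fun v => F n (update e i v) = 0) (G n e)
  reg : ∀ {g : ℕ → ℕ}, (Nm fun n _ => g n) →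
    (∀ᶠ n in atTop, g n = 0) ∨ ∀ᶠ n in atTop, g n ≠ 0
  wf : WellFounded fun c g : ℕ → ℕ =>
    (Nm fun n _ => c n) ∧ (Nm fun n _ => g n) ∧ NonStd c ∧ ∀ᶠ n in atTop, c (n + 1) ≤ g n

variable {ι : Type} [DecidableEq ι]

namespace Clone

variable (C : Clone ι)

/-- named sequences -/
def Ns (g : ℕ → ℕ) : Prop := C.Nm fun n _ => g n

/-- named unary functions -/
def Nm1 (ψ : ℕ → ℕ → ℕ) : Prop := ∀ G, C.Nm G → C.Nm fun n e => ψ n (G n e)

/-- named predicates -/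
def NmP (P : ℕ → (ι → ℕ) → Prop) : Prop := ∃ F, C.Nm F ∧ ∀ n e, P n e ↔ F n e = 0

/-- the well-founded relation -/
def Bel (c g : ℕ → ℕ) : Prop := C.Ns c ∧ C.Ns g ∧ NonStd c ∧ ∀ᶠ n in atTop, c (n + 1) ≤ g n

theorem wf_bel : WellFounded C.Bel := C.wf

variable {C}

theorem Nm.congr {F G : ℕ → (ι → ℕ) → ℕ} (h : C.Nm F) (he : ∀ n e, F n e = G n e) : C.Nm G := by
  have : F = G := by funext n e; exact he n e
  rwa [← this]

theorem ns_const (c : ℕ) : C.Ns fun _ => c := C.const c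

theorem Ns.succ {a : ℕ → ℕ} (h : C.Ns a) : C.Ns fun n => a n + 1 := C.add h (C.const 1)

theorem Ns.pred {a : ℕ → ℕ} (h : C.Ns a) : C.Ns fun n => a n - 1 := C.sub h (C.const 1)

theorem Ns.sh {a : ℕ → ℕ} (h : C.Ns a) : C.Ns fun n => a (n + 1) := C.shift h

theorem Ns.shs {a : ℕ → ℕ} (h : C.Ns a) (m : ℕ) : C.Ns fun n => a (n + m) := by
  induction m with
  | zero => exact h
  | succ m ih => exact Nm.congr ih.sh fun n _ => congrArg a (by omega)

theorem Nm1.app {ψ : ℕ → ℕ → ℕ} (h : C.Nm1 ψ) {a : ℕ → ℕ} (ha : C.Ns a) :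
    C.Ns fun n => ψ n (a n) := h _ ha

theorem Ns.le_or_lt {a b : ℕ → ℕ} (ha : C.Ns a) (hb : C.Ns b) :
    (∀ᶠ n in atTop, a n ≤ b n) ∨ ∀ᶠ n in atTop, b n < a n := by
  rcases C.reg (g := fun n => a n - b n) (C.sub ha hb) with h | h
  · left; filter_upwards [h] with n hn; omega
  · right; filter_upwards [h] with n hn; omega

theorem Ns.std_or {a : ℕ → ℕ} (ha : C.Ns a) : (∃ k, ∀ᶠ n in atTop, a n = k) ∨ NonStd a := by
  rcases ha.sh.le_or_lt ha with h | h
  · exact Or.inl (ev_const_of_anti h)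
  · exact Or.inr h

theorem Ns.mono {a : ℕ → ℕ} (ha : C.Ns a) : ∀ᶠ n in atTop, a n ≤ a (n + 1) := by
  rcases ha.std_or with ⟨k, h⟩ | h
  · filter_upwards [h, ev_succ h] with n h1 h2; omega
  · filter_upwards [h] with n h1; omega

theorem NmP.le {F G : ℕ → (ι → ℕ) → ℕ} (hF : C.Nm F) (hG : C.Nm G) :
    C.NmP fun n e => F n e ≤ G n e := ⟨_, C.sub hF hG, fun n e => by omega⟩

theorem NmP.lt {F G : ℕ → (ι → ℕ) → ℕ} (hF : C.Nm F) (hG : C.Nm G) :
    C.NmP fun n e => F n e < G n e := ⟨_, C.sub (C.add hF (C.const 1)) hG, fun n e => by omega⟩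

theorem NmP.upd {P : ℕ → (ι → ℕ) → Prop} (hP : C.NmP P) (i : ι) {G : ℕ → (ι → ℕ) → ℕ}
    (hG : C.Nm G) : C.NmP fun n e => P n (update e i (G n e)) := by
  obtain ⟨F, hF, h⟩ := hP
  exact ⟨_, C.upd i hF hG, fun n e => h _ _⟩

theorem NmP.mu {P : ℕ → (ι → ℕ) → Prop} (hP : C.NmP P) (i : ι) {G : ℕ → (ι → ℕ) → ℕ}
    (hG : C.Nm G) : C.Nm fun n e => tmin (fun v => P n (update e i v)) (G n e) := by
  obtain ⟨F, hF, h⟩ := hP
  refine Nm.congr (C.mu i hF hG) fun n e => ?_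
  simp only [h]

theorem Nm.fill {F : ℕ → (ι → ℕ) → ℕ} (hF : C.Nm F) (s : Finset ι) (a : ι → ℕ → ℕ)
    (ha : ∀ i ∈ s, C.Ns (a i)) : C.Nm fun n e => F n fun i => if i ∈ s then a i n else e i := by
  induction s using Finset.induction_on generalizing F with
  | empty => simpa using hF
  | insert j s hj ih =>
    have h1 := ih (C.upd j hF (ha j (by simp))) fun i hi => ha i (by simp [hi])
    refine Nm.congr h1 fun n e => ?_
    congr 1
    funext i
    by_cases hi : i = j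
    · subst hi; simp
    · simp [hi]

theorem NmP.fill {P : ℕ → (ι → ℕ) → Prop} (hP : C.NmP P) (s : Finset ι) (a : ι → ℕ → ℕ)
    (ha : ∀ i ∈ s, C.Ns (a i)) : C.NmP fun n e => P n fun i => if i ∈ s then a i n else e i := by
  obtain ⟨F, hF, h⟩ := hP
  exact ⟨_, Nm.fill hF s a ha, fun n e => h _ _⟩

theorem NmP.reg {p : ℕ → Prop} (hP : C.NmP fun n _ => p n) :
    (∀ᶠ n in atTop, p n) ∨ ∀ᶠ n in atTop, ¬ p n := by
  classical
  obtain ⟨F, hF, h⟩ := hP
  have h1 : C.Nm fun n _ => if p n then 0 else 1 := by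
    refine Nm.congr (C.sub (C.const 1) (C.sub (C.const 1) hF)) fun n e => ?_
    have := h n e
    split_ifs with hp
    · have := this.1 hp; omega
    · have := mt this.2 hp; omega
  rcases C.reg h1 with h2 | h2
  · left; filter_upwards [h2] with n hn; by_contra hp; simp [hp] at hn
  · right; filter_upwards [h2] with n hn hp; simp [hp] at hn

theorem nm1_tmin [Nontrivial ι] {Q : ℕ → ℕ → ℕ → Prop} {M : ℕ → ℕ} (hM : C.Ns M)
    (hQ : ∀ F G, C.Nm F → C.Nm G → C.NmP fun n e => Q n (F n e) (G n e)) :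
    C.Nm1 fun n b => tmin (fun a => Q n a b) (M n) := by
  obtain ⟨i, j, hij⟩ := exists_pair_ne ι
  intro G hG
  have h1 := C.upd j ((hQ _ _ (C.var i) (C.var j)).mu i hM) hG
  refine Nm.congr h1 fun n e => ?_
  simp [update_of_ne hij.symm]

/-- cuts in the preorder of named sequences -/
structure Cut (C : Clone ι) (I : (ℕ → ℕ) → Prop) : Prop where
  ns : ∀ {a}, I a → C.Ns a
  down : ∀ {a b}, C.Ns a → I b → (∀ᶠ n in atTop, a n ≤ b n) → I a
  zero : I fun _ => 0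
  succ : ∀ {a}, I a → I fun n => a n + 1
  proper : ∃ M, C.Ns M ∧ ¬ I M

variable {I J K : (ℕ → ℕ) → Prop}

theorem Cut.lt (h : C.Cut I) {a b : ℕ → ℕ} (ha : I a) (hb : C.Ns b) (hb' : ¬ I b) :
    ∀ᶠ n in atTop, a n < b n :=
  (hb.le_or_lt (h.ns ha)).resolve_left fun h1 => hb' (h.down hb ha h1)

theorem Cut.pred (h : C.Cut I) {b : ℕ → ℕ} (hb : C.Ns b) (hb' : ¬ I b) : ¬ I fun n => b n - 1 :=
  fun h1 => hb' (h.down hb (h.succ h1) (Eventually.of_forall fun n => by omega))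

theorem Cut.pos (h : C.Cut I) {b : ℕ → ℕ} (hb : C.Ns b) (hb' : ¬ I b) :
    ∀ᶠ n in atTop, 0 < b n := h.lt h.zero hb hb'

theorem Cut.min_in (h : C.Cut I) {M : ℕ → ℕ} (hM : C.Ns M) (hM' : ¬ I M) {P : ℕ → ℕ → Prop}
    (h1 : I fun n => tmin (P n) (M n)) : ∀ᶠ n in atTop, P n (tmin (P n) (M n)) := by
  filter_upwards [h.lt h1 hM hM'] with n hn using tmin_spec hn

theorem Cut.min_out (h : C.Cut I) {M : ℕ → ℕ} {P : ℕ → ℕ → Prop}
    (h0 : C.Ns fun n => tmin (P n) (M n)) (h1 : ¬ I fun n => tmin (P n) (M n)) :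
    ∀ᶠ n in atTop, ¬ P n (tmin (P n) (M n) - 1) := by
  filter_upwards [h.pos h0 h1] with n hn using not_of_lt_tmin (M := M n) (by omega)

/-- isomorphic cuts -/
def Iso (C : Clone ι) (I J : (ℕ → ℕ) → Prop) : Prop :=
  ∃ χ, C.Nm1 χ ∧ (∀ n, Monotone (χ n)) ∧ ∀ a, C.Ns a → (I a ↔ J fun n => χ n (a n))

/-- tied cuts -/
def Tie (C : Clone ι) (I J : (ℕ → ℕ) → Prop) : Prop :=
  ∃ ψ, C.Nm1 ψ ∧ (∀ n, Antitone (ψ n)) ∧ ∀ a, C.Ns a → (I a ↔ ¬ J fun n => ψ n (a n))

theorem Iso.refl (I : (ℕ → ℕ) → Prop) : C.Iso I I :=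
  ⟨fun _ a => a, fun _ h => h, fun _ => monotone_id, fun _ _ => Iff.rfl⟩

theorem Iso.trans (h : C.Iso I J) (h' : C.Iso J K) : C.Iso I K := by
  obtain ⟨f, h1, h2, h3⟩ := h
  obtain ⟨g, g1, g2, g3⟩ := h'
  exact ⟨fun n a => g n (f n a), fun G hG => g1 _ (h1 _ hG), fun n => (g2 n).comp (h2 n),
    fun a ha => (h3 a ha).trans (g3 _ (h1.app ha))⟩

theorem Iso.tie (h : C.Iso I J) (h' : C.Tie J K) : C.Tie I K := by
  obtain ⟨f, h1, h2, h3⟩ := h
  obtain ⟨g, g1, g2, g3⟩ := h'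
  exact ⟨fun n a => g n (f n a), fun G hG => g1 _ (h1 _ hG), fun n => (g2 n).comp_monotone (h2 n),
    fun a ha => (h3 a ha).trans (g3 _ (h1.app ha))⟩

theorem Tie.iso (h : C.Tie I J) (h' : C.Iso J K) : C.Tie I K := by
  obtain ⟨f, h1, h2, h3⟩ := h
  obtain ⟨g, g1, g2, g3⟩ := h'
  exact ⟨fun n a => g n (f n a), fun G hG => g1 _ (h1 _ hG), fun n => (g2 n).comp_antitone (h2 n),
    fun a ha => (h3 a ha).trans (not_congr (g3 _ (h1.app ha)))⟩

theorem Tie.tie (h : C.Tie I J) (h' : C.Tie J K) : C.Iso I K := by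
  obtain ⟨f, h1, h2, h3⟩ := h
  obtain ⟨g, g1, g2, g3⟩ := h'
  exact ⟨fun n a => g n (f n a), fun G hG => g1 _ (h1 _ hG), fun n => (g2 n).comp (h2 n),
    fun a ha => (h3 a ha).trans ((not_congr (g3 _ (h1.app ha))).trans not_not)⟩

variable [Nontrivial ι]

theorem Iso.symm (hI : C.Cut I) (hJ : C.Cut J) (h : C.Iso I J) : C.Iso J I := by
  obtain ⟨f, h1, h2, h3⟩ := h
  obtain ⟨M, hM, hM'⟩ := hI.proper
  have hn : C.Nm1 fun n b => tmin (fun a => b < f n a) (M n) :=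
    nm1_tmin (Q := fun n a b => b < f n a) hM fun F G hF hG => NmP.lt hG (h1 _ hF)
  refine ⟨_, hn, fun n b b' hb => tmin_anti _ fun v hv => by omega, fun b hb => ?_⟩
  have h4 := hn.app hb
  constructor
  · intro hb'
    by_contra h5
    have h6 := hI.min_out (P := fun n a => b n < f n a) h4 h5
    refine hI.pred h4 h5 ((h3 _ h4.pred).2 (hJ.down (h1.app h4.pred) hb' ?_))
    filter_upwards [h6] with n hn using by omega
  · intro h5
    have h6 := hI.min_in (P := fun n a => b n < f n a) hM hM' h5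
    refine hJ.down hb ((h3 _ h4).1 h5) ?_
    filter_upwards [h6] with n hn using by omega

theorem Tie.symm (hI : C.Cut I) (hJ : C.Cut J) (h : C.Tie I J) : C.Tie J I := by
  obtain ⟨f, h1, h2, h3⟩ := h
  obtain ⟨M, hM, hM'⟩ := hI.proper
  have hn : C.Nm1 fun n b => tmin (fun a => f n a ≤ b) (M n) :=
    nm1_tmin (Q := fun n a b => f n a ≤ b) hM fun F G hF hG => NmP.le (h1 _ hF) hG
  refine ⟨_, hn, fun n b b' hb => tmin_anti _ fun v hv => by omega, fun b hb => ?_⟩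
  have h4 := hn.app hb
  constructor
  · intro hb' h5
    have h6 := hI.min_in (P := fun n a => f n a ≤ b n) hM hM' h5
    exact (h3 _ h4).1 h5 (hJ.down (h1.app h4) hb' h6)
  · intro h5
    have h6 := hI.min_out (P := fun n a => f n a ≤ b n) h4 h5
    have h7 := not_not.1 (mt (h3 _ h4.pred).2 (hI.pred h4 h5))
    refine hJ.down hb h7 ?_
    filter_upwards [h6] with n hn using by omega

theorem not_tie_self (hI : C.Cut I) : ¬ C.Tie I I := by
  rintro ⟨f, h1, h2, h3⟩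
  obtain ⟨M, hM, hM'⟩ := hI.proper
  have hn : C.Nm1 fun n _ => tmin (fun a => f n a ≤ a) (M n) :=
    nm1_tmin (Q := fun n a _ => f n a ≤ a) hM fun F G hF _ => NmP.le (h1 _ hF) hF
  have h4 := hn.app hM
  by_cases h5 : I fun n => tmin (fun a => f n a ≤ a) (M n)
  · have h6 := hI.min_in (P := fun n a => f n a ≤ a) hM hM' h5
    exact (h3 _ h4).1 h5 (hI.down (h1.app h4) h5 h6)
  · have h6 := hI.min_out (P := fun n a => f n a ≤ a) h4 h5
    have h7 := not_not.1 (mt (h3 _ h4.pred).2 (hI.pred h4 h5))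
    refine hI.pred h4 h5 (hI.down h4.pred h7 ?_)
    filter_upwards [h6] with n hn using by omega

/-- a representative of the class of a cut -/
noncomputable def rep (C : Clone ι) (I : (ℕ → ℕ) → Prop) : (ℕ → ℕ) → Prop :=
  Classical.epsilon fun K => C.Cut K ∧ (C.Iso K I ∨ C.Tie K I)

omit [Nontrivial ι] in
theorem rep_spec (hI : C.Cut I) : C.Cut (C.rep I) ∧ (C.Iso (C.rep I) I ∨ C.Tie (C.rep I) I) :=
  Classical.epsilon_spec (p := fun K => C.Cut K ∧ (C.Iso K I ∨ C.Tie K I))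
    ⟨I, hI, Or.inl (Iso.refl I)⟩

theorem Tie.rep_eq (hI : C.Cut I) (hJ : C.Cut J) (h : C.Tie I J) : C.rep I = C.rep J := by
  unfold rep
  congr 1
  funext K
  apply propext
  refine and_congr_right fun _ => ⟨?_, ?_⟩
  · rintro (h1 | h1)
    exacts [Or.inr (h1.tie h), Or.inl (h1.tie h)]
  · rintro (h1 | h1)
    exacts [Or.inr (h1.tie (h.symm hI hJ)), Or.inl (h1.tie (h.symm hI hJ))]

theorem Tie.sign (hI : C.Cut I) (hJ : C.Cut J) (h : C.Tie I J) :
    ¬ (C.Iso (C.rep I) I ↔ C.Iso (C.rep J) J) := by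
  intro h1
  have h2 := rep_spec hI
  have h3 := rep_spec hJ
  rw [← h.rep_eq hI hJ] at h1 h3
  by_cases h4 : C.Iso (C.rep I) I
  · exact not_tie_self hJ ((((h1.1 h4).symm h2.1 hJ).trans h4).tie h)
  · have h5 := h2.2.resolve_left h4
    have h6 := h3.2.resolve_left (mt h1.2 h4)
    exact not_tie_self hJ (((h6.symm h2.1 hJ).tie h5).tie h)

end Clone

end Pool.Agent.MP_aa180b_lc.H22
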