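import Pool.Agent.MP_aa180b_lc.H22.Recode
import Pool.Agent.MP_aa180b_lc.H48.Force

/-! The Ramsey theoretic converse. -/

set_option autoImplicit false

namespace Pool.Agent.MP_aa180b_lc.H22

open Filter Function Set Pool.Agent.MP_aa180b_lc.H48

theorem force_meas {Z : Set (ℕ → ℕ)} (hZ : MeasurableSet Z) :
    Force (hyperfilter ℕ) [] Z ∨ Force (hyperfilter ℕ) [] Zᶜ := by
  by_cases h : Force (hyperfilter ℕ) [] Zᶜ
  · exact Or.inr h
  · exact Or.inl (force_analytic id (fun a b n hn => hn n (by omega)) hZ.analyticSet [] h)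

theorem force_strictMono : Force (hyperfilter ℕ) [] {a | StrictMono a} := by
  refine ⟨fun u => {x | u.getD 0 0 < x}, fun u => ?_, fun a _ ha => ?_⟩
  · refine mem_hyperfilter_of_finite_compl ((Set.finite_le_nat (u.getD 0 0)).subset ?_)
    intro x hx
    simpa using hx
  · exact strictMono_nat_of_lt_succ fun n => ha (n + 1) (by simp)

theorem ramsey_on {G : Set (ℕ → ℕ)} (hG : Force (hyperfilter ℕ) [] G)
    (hG' : ∀ x ∈ G, x ∘ Nat.succ ∈ G) {g : (ℕ → ℕ) → ℝ} (hg : Measurable g)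
    (hinv : ∀ x ∈ G, g (x ∘ Nat.succ) = g x) :
    ∃ x0 ∈ G, ∀ (n : ℕ) (c : (ℕ → ℕ) → Fin n), Measurable c →
      ∃ x ∈ G, g x = g x0 ∧ c (x ∘ Nat.succ) = c x := by
  let q : ℕ → ℚ := Denumerable.ofNat ℚ
  have h2 : ∀ i, ∃ b : Prop, Force (hyperfilter ℕ) [] {a | g a < q i ↔ b} := by
    intro i
    rcases force_meas (Z := {y | g y < q i}) (hg measurableSet_Iio) with h2 | h2
    · exact ⟨True, h2.mono fun a ha => by simpa using ha⟩
    · exact ⟨False, h2.mono fun a ha => by simpa using ha⟩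
  choose b hb using h2
  have h3 : Force (hyperfilter ℕ) [] {a | a ∈ G ∧ ∀ i, g a < q i ↔ b i} := by
    refine (hG.inter (force_all_sh _ hb)).mono ?_
    rintro a ⟨h1, ha⟩
    refine ⟨h1, fun i => ?_⟩
    have e : ∀ n, sh n a ∈ G ∧ g (sh n a) = g a := by
      intro n
      induction n with
      | zero => exact ⟨h1, rfl⟩
      | succ n ih =>
        rw [← sh_comp_succ, hinv _ ih.1, ih.2]
        exact ⟨hG' _ ih.1, rfl⟩
    rw [← (e i).2]
    exact ha i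
  obtain ⟨a0, ha0⟩ := h3.exists_root
  refine ⟨a0, ha0.1, fun n c hc => ?_⟩
  have h5 : ∃ v, Force (hyperfilter ℕ) [] {y | c y = v} := by
    by_contra hn
    have := force_list (W := hyperfilter ℕ) (s := []) (List.finRange n) (fun v => {y | c y = v}ᶜ)
      fun v _ => (force_meas (hc (measurableSet_singleton v))).resolve_left fun h' => hn ⟨v, h'⟩
    obtain ⟨a, ha⟩ := this.exists_root
    exact ha (c a) (List.mem_finRange _) rfl
  obtain ⟨v, hv⟩ := h5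
  obtain ⟨a, ha, h8⟩ := (h3.inter (force_all_sh _ fun _ => hv)).exists_root
  refine ⟨a, ha.1, eq_of_forall_lt_rat_iff_lt fun r => ?_, (h8 1).trans (h8 0).symm⟩
  obtain ⟨i, rfl⟩ : ∃ i, q i = r := ⟨_, Denumerable.ofNat_encode r⟩
  rw [ha.2 i, ha0.2 i]

theorem ramsey_inv {g : (ℕ → ℕ) → ℝ} (hg : Measurable g)
    (hinv : ∀ x, StrictMono x → g (x ∘ Nat.succ) = g x) :
    ∃ x0, StrictMono x0 ∧ ∀ (n : ℕ) (c : (ℕ → ℕ) → Fin n), Measurable c →
      ∃ x, StrictMono x ∧ g x = g x0 ∧ c (x ∘ Nat.succ) = c x :=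
  ramsey_on force_strictMono (fun _ hx => StrictMono.comp hx fun _ _ h => Nat.succ_lt_succ h) hg
    hinv

theorem not_smooth_of_hom {B : Set (ℕ → ℕ)} {k : ℕ} {φ : (ℕ → ℕ) → (ℕ → ℕ)} (hφ : Measurable φ)
    (h1 : ∀ x, StrictMono x → φ x ∈ B ∧ φ (x ∘ Nat.succ) = shf k (φ x)) :
    ¬ ∃ h : (ℕ → ℕ) → ℝ, Measurable h ∧
      (∀ x ∈ B, ∀ y ∈ B, (∃ m n : ℕ, ∀ i : ℕ, x (m + i) = y (n + i)) → h x = h y) ∧
      ∀ x ∈ B, ∃ n : ℕ, ∃ c : (ℕ → ℕ) → Fin n, Measurable c ∧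
        ∀ y ∈ B, h y = h x → c (shf k y) ≠ c y := by
  rintro ⟨h, h2, h3, h4⟩
  obtain ⟨x0, h5, h6⟩ := ramsey_inv (h2.comp hφ) fun x hx =>
    h3 _ (h1 _ (hx.comp fun _ _ h => Nat.succ_lt_succ h)).1 _ (h1 x hx).1
      ⟨0, k, fun i => by rw [(h1 x hx).2]; exact congrArg (φ x) (by omega)⟩
  obtain ⟨n, c, h7, h8⟩ := h4 _ (h1 x0 h5).1
  obtain ⟨x, h9, h10, h11⟩ := h6 n (c ∘ φ) (h7.comp hφ)
  refine h8 _ (h1 x h9).1 h10 ?_
  rw [← (h1 x h9).2]
  exact h11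

theorem dichotomy {B : Set (ℕ → ℕ)} (hB : MeasurableSet B) (hs : ∀ x ∈ B, StrictMono x)
    (hi : ∀ x y : ℕ → ℕ, StrictMono x → StrictMono y →
      (∃ m n : ℕ, ∀ k : ℕ, x (m + k) = y (n + k)) → (x ∈ B ↔ y ∈ B)) :
    (∃ h : (ℕ → ℕ) → ℝ, Measurable h ∧
      (∀ x y : ℕ → ℕ, (∃ m n : ℕ, ∀ k : ℕ, x (m + k) = y (n + k)) → h x = h y) ∧
      ∀ x ∈ B, ∀ r, 1 ≤ r → ∃ c : (ℕ → ℕ) → Fin 3, Measurable c ∧
        ∀ y, h y = h x → c (shf r y) ≠ c y) ∨
    ∃ k, 1 ≤ k ∧ ∃ φ : (ℕ → ℕ) → (ℕ → ℕ), Measurable φ ∧ ∀ x : ℕ → ℕ, StrictMono x →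
      φ x ∈ B ∧ φ (x ∘ Nat.succ) = shf k (φ x) := by
  refine or_iff_not_imp_right.2 fun hn => ?_
  choose h h1 h2 h3 using fun r : ℕ => (main (r := r + 1) (by omega) le_rfl hB hs hi).resolve_right
    fun h => hn ⟨_, by omega, h⟩
  have he := MeasureTheory.measurableEmbedding_embeddingReal (ℕ → ℝ)
  refine ⟨fun y => MeasureTheory.embeddingReal (ℕ → ℝ) fun r => h r y,
    he.measurable.comp (measurable_pi_lambda _ h1), fun x y hxy => ?_, fun x hx r hr => ?_⟩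
  · simp only [fun r => h2 r x y hxy]
  · obtain ⟨r, rfl⟩ : ∃ m, r = m + 1 := ⟨r - 1, by omega⟩
    obtain ⟨c, h4, h5⟩ := h3 r x hx
    exact ⟨c, h4, fun y hy => h5 y (congrFun (he.injective hy) r)⟩

/-- the interleaved square -/
def Sq (B : Set (ℕ → ℕ)) : Set (ℕ → ℕ) :=
  {w | StrictMono w ∧ (fun i => w (2 * i)) ∈ B ∧ (fun i => w (2 * i + 1)) ∈ B}

theorem measurable_sq {B : Set (ℕ → ℕ)} (hB : MeasurableSet B) : MeasurableSet (Sq B) := by
  have h1 : Measurable fun w : ℕ → ℕ => StrictMono w :=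
    Measurable.forall fun a => Measurable.forall fun b => measurable_const.imp
      (measurable_nat2 (measurable_pi_apply a) (measurable_pi_apply b) (· < ·))
  exact (measurableSet_setOfPred.2 h1).inter
    (((measurable_pi_lambda _ fun i => measurable_pi_apply (2 * i)) hB).inter
      ((measurable_pi_lambda _ fun i => measurable_pi_apply (2 * i + 1)) hB))

theorem sq_inv {B : Set (ℕ → ℕ)}
    (hi : ∀ x y : ℕ → ℕ, StrictMono x → StrictMono y →
      (∃ m n : ℕ, ∀ k : ℕ, x (m + k) = y (n + k)) → (x ∈ B ↔ y ∈ B))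
    (x y : ℕ → ℕ) (hy : StrictMono y) (h : ∃ m n : ℕ, ∀ k : ℕ, x (m + k) = y (n + k))
    (hx : x ∈ Sq B) : y ∈ Sq B := by
  obtain ⟨m, n, h⟩ := h
  obtain ⟨h1, h2, h3⟩ := hx
  have e0 : ∀ {z : ℕ → ℕ}, StrictMono z → StrictMono fun i => z (2 * i) :=
    fun hz a b hab => hz (by omega)
  have e1 : ∀ {z : ℕ → ℕ}, StrictMono z → StrictMono fun i => z (2 * i + 1) :=
    fun hz a b hab => hz (by omega)
  have e : ∀ a b, a + n = b + m → n ≤ b → x a = y b := fun a b h4 h5 => by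
    have := h (b - n)
    rwa [show m + (b - n) = a by omega, show n + (b - n) = b by omega] at this
  rcases Nat.even_or_odd' (m + n) with ⟨t, ht | ht⟩
  · exact ⟨hy, (hi _ _ (e0 h1) (e0 hy) ⟨t, n, fun i => e _ _ (by omega) (by omega)⟩).1 h2,
      (hi _ _ (e1 h1) (e1 hy) ⟨t, n, fun i => e _ _ (by omega) (by omega)⟩).1 h3⟩
  · exact ⟨hy, (hi _ _ (e1 h1) (e0 hy) ⟨t, n, fun i => e _ _ (by omega) (by omega)⟩).1 h3,
      (hi _ _ (e0 h1) (e1 hy) ⟨t + 1, n, fun i => e _ _ (by omega) (by omega)⟩).1 h2⟩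

theorem sq_not_smooth {B : Set (ℕ → ℕ)} (hs : ∀ x ∈ B, StrictMono x)
    {φ : (ℕ → ℕ) → (ℕ → ℕ)} (hφ : Measurable φ)
    (h1 : ∀ x, StrictMono x → φ x ∈ B ∧
      (φ (x ∘ Nat.succ) = φ x ∘ Nat.succ ∨ φ x = φ (x ∘ Nat.succ) ∘ Nat.succ)) :
    ¬ ∃ h : (ℕ → ℕ) → ℝ, Measurable h ∧
      (∀ x ∈ Sq B, ∀ y ∈ Sq B, (∃ m n : ℕ, ∀ i : ℕ, x (m + i) = y (n + i)) → h x = h y) ∧
      ∀ x ∈ Sq B, ∃ n : ℕ, ∃ c : (ℕ → ℕ) → Fin n, Measurable c ∧
        ∀ y ∈ Sq B, h y = h x → c (y ∘ Nat.succ) ≠ c y := by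
  rintro ⟨h, h2, h3, h4⟩
  let p : ℕ → (ℕ → ℕ) → ℕ → ℕ := fun n x => φ fun i => x (2 * i + n)
  have hp : ∀ n, Measurable (p n) := fun n =>
    hφ.comp (measurable_pi_lambda _ fun i => measurable_pi_apply _)
  have hps : ∀ n m x, p n (sh m x) = p (n + m) x := fun n m x =>
    congrArg φ (funext fun i => congrArg x (by omega))
  have hpB : ∀ n x, StrictMono x → p n x ∈ B ∧
      (p (n + 2) x = p n x ∘ Nat.succ ∨ p n x = p (n + 2) x ∘ Nat.succ) := fun n x hx =>  by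
    have := h1 (fun i => x (2 * i + n)) fun a b hab => hx (by omega)
    rwa [show (fun i => x (2 * i + n)) ∘ Nat.succ = fun i => x (2 * i + (n + 2)) from
      funext fun i => congrArg x (by simp only [Nat.succ_eq_add_one]; omega)] at this
  have hD : Force (hyperfilter ℕ) [] {x | p 2 x = p 0 x ∘ Nat.succ} := by
    refine (force_meas (measurableSet_eq_fun (hp 2)
      (measurable_pi_lambda _ fun i => (measurable_pi_apply _).comp (hp 0)))).resolve_right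
      fun hc => ?_
    obtain ⟨x, hx, h5⟩ := (force_strictMono.inter (force_all_sh _ fun _ => hc)).exists_root
    have h6 : ∀ n, p (2 * (n + 1)) x 0 < p (2 * n) x 0 := fun n => by
      have h7 := h5 (2 * n)
      simp only [mem_compl_iff, mem_ofPred_eq, hps, Nat.zero_add, Nat.add_comm 2] at h7
      rw [(hpB _ x hx).2.resolve_left h7]
      exact hs _ (hpB _ x hx).1 (Nat.succ_pos 0)
    exact (RelEmbedding.natGT (fun n => p (2 * n) x 0) h6).not_wellFounded wellFounded_lt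
  have hF : Force (hyperfilter ℕ) [] {x | p 0 x 0 < p 1 x 0} := by
    refine (force_meas (measurableSet_setOfPred.2 (measurable_nat2
      ((measurable_pi_apply 0).comp (hp 0)) ((measurable_pi_apply 0).comp (hp 1))
      (· < ·)))).resolve_right fun hc => ?_
    obtain ⟨x, ⟨hx, h5⟩, h6⟩ := ((force_strictMono.inter hD).inter
      (force_all_sh _ fun _ => hc)).exists_root
    have h7 := h6 0
    have h8 := h6 1
    simp only [mem_compl_iff, mem_ofPred_eq, comp, hps, Nat.zero_add, Nat.add_zero,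
      Nat.reduceAdd] at h5 h7 h8
    have h9 := hs _ (hpB 0 x hx).1 (Nat.succ_pos 0)
    have h10 := congrFun h5 0
    simp only [comp] at h10
    omega
  let ψ : (ℕ → ℕ) → ℕ → ℕ := fun x n => p n x 0
  have hψ : Measurable ψ := measurable_pi_lambda _ fun n => (measurable_pi_apply 0).comp (hp n)
  have hψs : ∀ x, ψ (x ∘ Nat.succ) = ψ x ∘ Nat.succ := fun x =>
    funext fun n => congrFun (hps n 1 x) 0
  let G : Set (ℕ → ℕ) :=
    {x | StrictMono x ∧ ∀ n, p (n + 2) x = p n x ∘ Nat.succ ∧ p n x 0 < p (n + 1) x 0}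
  have hG : Force (hyperfilter ℕ) [] G := by
    refine (force_strictMono.inter (force_all_sh _ fun _ => hD.inter hF)).mono ?_
    rintro x ⟨hx, h5⟩
    refine ⟨hx, fun n => ?_⟩
    have := h5 n
    simpa only [mem_inter_iff, mem_ofPred_eq, hps, Nat.add_zero, Nat.add_comm _ n] using this
  have hG' : ∀ x ∈ G, x ∘ Nat.succ ∈ G := fun x hx =>
    ⟨hx.1.comp fun _ _ h => Nat.succ_lt_succ h, fun n => by
      rw [show x ∘ Nat.succ = sh 1 x from rfl, hps, hps, hps]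
      exact hx.2 (n + 1)⟩
  have hGS : ∀ x ∈ G, ψ x ∈ Sq B := fun x hx => by
    have h5 : ∀ m n, p (2 * m + n) x 0 = p n x m := fun m => by
      induction m with
      | zero => simp
      | succ m ih =>
        intro n
        rw [show 2 * (m + 1) + n = 2 * m + (n + 2) by omega, ih, (hx.2 n).1]
        rfl
    refine ⟨strictMono_nat_of_lt_succ fun n => (hx.2 n).2, ?_, ?_⟩
    · convert (hpB 0 x hx.1).1 using 1
      exact funext fun m => h5 m 0
    · convert (hpB 1 x hx.1).1 using 1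
      exact funext fun m => h5 m 1
  obtain ⟨x0, h5, h6⟩ := ramsey_on hG hG' (h2.comp hψ) fun x hx =>
    h3 _ (hGS _ (hG' x hx)) _ (hGS x hx)
      ⟨0, 1, fun i => by rw [hψs]; exact congrArg (ψ x) (by omega)⟩
  obtain ⟨n, c, h7, h8⟩ := h4 _ (hGS x0 h5)
  obtain ⟨x, h9, h10, h11⟩ := h6 n (c ∘ ψ) (h7.comp hψ)
  refine h8 _ (hGS x h9) h10 ?_
  rw [← hψs]
  exact h11

end Pool.Agent.MP_aa180b_lc.H22
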