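import Pool.Agent.MP_aa180b_lc.H22.Build

/-! Terms, eventual types along orbits, and the abstract dichotomy. -/

set_option autoImplicit false

namespace Pool.Agent.MP_aa180b_lc.H22

open Filter Function Clone

/-- terms -/
inductive Tm : Type
  | var : Nd → Tm
  | const : ℕ → Tm
  | lab : Tm
  | std : ℕ × ℕ × Finset Nd → Tm
  | add : Tm → Tm → Tm
  | sub : Tm → Tm → Tm
  | upd : Nd → Tm → Tm → Tm
  | sh : Tm → Tm
  | mu : Nd → Tm → Tm → Tm
  deriving Countable

variable {X : Type*}

/-- evaluation of terms -/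
noncomputable def ev (T : X → X) (l : X → ℕ) (Φ : ℕ × ℕ × Finset Nd → (Nd → ℕ) → ℕ) :
    Tm → X → (Nd → ℕ) → ℕ
  | .var i, _, e => e i
  | .const c, _, _ => c
  | .lab, x, _ => l x
  | .std p, _, e => Φ p e
  | .add a b, x, e => ev T l Φ a x e + ev T l Φ b x e
  | .sub a b, x, e => ev T l Φ a x e - ev T l Φ b x e
  | .upd i a b, x, e => ev T l Φ a x (update e i (ev T l Φ b x e))
  | .sh a, x, e => ev T l Φ a (T x) e
  | .mu i a b, x, e => tmin (fun v => ev T l Φ a x (update e i v) = 0) (ev T l Φ b x e)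

/-- hit and missed infinitely often -/
def Irr (T : X → X) (A : X → Prop) (x : X) : Prop :=
  (∃ᶠ n in atTop, A (T^[n] x)) ∧ ∃ᶠ n in atTop, ¬ A (T^[n] x)

theorem ev_orbit (T : X → X) (A : X → Prop) (x : X) :
    (∀ᶠ n in atTop, A (T^[n] (T x))) ↔ ∀ᶠ n in atTop, A (T^[n] x) :=
  ⟨fun h => ev_of_succ h, fun h => ev_succ h⟩

theorem irr_iff (T : X → X) (A : X → Prop) (x : X) : Irr T A (T x) ↔ Irr T A x := by
  unfold Irr Filter.Frequently
  rw [ev_orbit T (fun x => ¬ A x), ev_orbit T (fun x => ¬ ¬ A x)]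

theorem Irr.fall {T : X → X} {A : X → Prop} {x : X} (h : Irr T A x) :
    ∃ n, A (T^[n] x) ∧ ¬ A (T^[n + 1] x) := by
  obtain ⟨n, hn⟩ := h.1.exists
  by_contra h1
  refine h.2 (eventually_atTop.2 ⟨n, fun m hm => not_not.2 ?_⟩)
  induction m, hm using Nat.le_induction with
  | base => exact hn
  | succ m _ ih => exact by_contra fun h2 => h1 ⟨m, ih, h2⟩

theorem seq_irr {κ γ : ℕ → ℕ} (h1 : ∀ n, κ n ≤ κ (n + 1)) (h2 : ∀ K, ∀ᶠ n in atTop, K ≤ κ n)
    (h3 : ∀ n, n < κ n → γ (n + 1) ≤ γ n) (h4 : ∀ n, κ n - n ≤ γ n) :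
    ((∃ᶠ n in atTop, κ (n + 1) ≤ κ n + 1) ∧ ∃ᶠ n in atTop, ¬ κ (n + 1) ≤ κ n + 1) ∨
      ((∃ᶠ n in atTop, κ n % 2 = 0) ∧ ∃ᶠ n in atTop, ¬ κ n % 2 = 0) := by
  by_cases h5 : ∃ᶠ n in atTop, κ (n + 1) ≤ κ n + 1
  · by_cases h6 : ∃ᶠ n in atTop, ¬ κ (n + 1) ≤ κ n + 1
    · exact Or.inl ⟨h5, h6⟩
    right
    rw [not_frequently] at h6
    by_contra h7
    have h8 : ∀ᶠ n in atTop, κ (n + 1) ≤ κ n := by
      rcases not_and_or.1 h7 with h7 | h7 <;> rw [not_frequently] at h7 <;>
        filter_upwards [h6, h7, ev_succ h7] with n h9 h10 h11 <;> have := h1 n <;> omega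
    obtain ⟨c, hc⟩ := ev_const_of_anti h8
    exact ev_false (by filter_upwards [hc, h2 (c + 1)] with n h9 h10; omega)
  · exfalso
    rw [not_frequently] at h5
    obtain ⟨N, hN⟩ := eventually_atTop.1 h5
    have h6 : ∀ m, 2 * m ≤ κ (N + m) := by
      intro m
      induction m with
      | zero => omega
      | succ m ih => have := hN (N + m) (by omega); rw [← Nat.add_assoc]; omega
    have h7 : ∀ n, N ≤ n → 2 * n ≤ κ n + 2 * N := fun n hn => by
      have := h6 (n - N)
      rw [show N + (n - N) = n by omega] at this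
      omega
    obtain ⟨c, hc⟩ := ev_const_of_anti (c := γ) (eventually_atTop.2 ⟨2 * N + 1, fun n hn =>
      h3 n (by have := h7 n (by omega); omega)⟩)
    refine ev_false ?_
    filter_upwards [hc, eventually_ge_atTop (2 * N + c + 1)] with n h8 h9
    have := h7 n (by omega)
    have := h4 n
    omega

variable [MeasurableSpace X] {T : X → X} {l : X → ℕ} {Φ : ℕ × ℕ × Finset Nd → (Nd → ℕ) → ℕ}

theorem measurable_nat {Y : Type*} [MeasurableSpace Y] {f : X → ℕ} (hf : Measurable f)
    (g : ℕ → Y) : Measurable fun x => g (f x) := (measurable_from_top (f := g)).comp hf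

theorem measurable_nat2 {Y : Type*} [MeasurableSpace Y] {f f' : X → ℕ} (hf : Measurable f)
    (hf' : Measurable f') (g : ℕ → ℕ → Y) : Measurable fun x => g (f x) (f' x) :=
  measurable_at (g := fun j x => g j (f' x)) (fun j => measurable_nat hf' (g j)) hf

theorem measurable_ev (hT : Measurable T) (hl : Measurable l) (t : Tm) (e : Nd → ℕ) :
    Measurable fun x => ev T l Φ t x e := by
  induction t generalizing e with
  | var i => exact measurable_const
  | const c => exact measurable_const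
  | lab => exact hl
  | std p => exact measurable_const
  | add a b iha ihb => exact measurable_nat2 (iha e) (ihb e) (· + ·)
  | sub a b iha ihb => exact measurable_nat2 (iha e) (ihb e) (· - ·)
  | upd i a b iha ihb =>
    exact measurable_at (g := fun v x => ev T l Φ a x (update e i v)) (fun v => iha _) (ihb e)
  | sh a iha => exact (iha e).comp hT
  | mu i a b iha ihb =>
    exact measurable_sInf (p := fun v x => ev T l Φ a x (update e i v) = 0 ∨ v = ev T l Φ b x e)
      fun v => (measurable_nat (iha _) (· = 0)).or (measurable_nat (ihb e) (v = ·))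

theorem measurable_evt (hT : Measurable T) {A : X → Prop} (hA : Measurable A) :
    Measurable fun x => ∀ᶠ n in atTop, A (T^[n] x) := by
  simp only [eventually_atTop]
  exact Measurable.exists fun N => Measurable.forall fun n =>
    measurable_const.imp (hA.comp (hT.iterate n))

theorem measurable_irr (hT : Measurable T) {A : X → Prop} (hA : Measurable A) :
    Measurable (Irr T A) :=
  (measurable_evt hT hA.not).not.and (measurable_evt hT hA.not.not).not

theorem colour_irr (hT : Measurable T) {A : X → Prop} (hA : Measurable A) :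
    ∃ c : X → Fin 3, Measurable c ∧ ∀ x, Irr T A x → c (T x) ≠ c x := by
  let d : X → ℕ := fun x => sInf {n | A (T^[n] x) ∧ ¬ A (T^[n + 1] x)}
  have hd : Measurable d := measurable_sInf fun n =>
    (hA.comp (hT.iterate n)).and (hA.comp (hT.iterate (n + 1))).not
  refine ⟨fun x => if d x = 0 then 2 else if d x % 2 = 0 then 0 else 1,
    measurable_nat hd fun n => if n = 0 then (2 : Fin 3) else if n % 2 = 0 then 0 else 1,
    fun x hx => ?_⟩
  have h1 : A (T^[d x] x) ∧ ¬ A (T^[d x + 1] x) := Nat.sInf_mem hx.fall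
  have h2 : A (T^[d (T x)] (T x)) ∧ ¬ A (T^[d (T x) + 1] (T x)) :=
    Nat.sInf_mem ((irr_iff T A x).2 hx).fall
  have h3 : d x ≤ d (T x) + 1 := Nat.sInf_le h2
  have h4 : d x = 0 → d (T x) ≠ 0 := fun h5 h6 => by
    rw [h5] at h1
    rw [h6] at h2
    exact h1.2 h2.1
  have h5 : d x ≠ 0 → d (T x) ≤ d x - 1 := fun h5 => Nat.sInf_le (by
    obtain ⟨m, hm⟩ : ∃ m, d x = m + 1 := ⟨d x - 1, by omega⟩
    rw [hm] at h1 ⊢
    exact h1)
  beta_reduce
  split_ifs <;> first | decide | omega

theorem colour_irr2 (hT : Measurable T) {A A' : X → Prop} (hA : Measurable A)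
    (hA' : Measurable A') :
    ∃ c : X → Fin 3, Measurable c ∧ ∀ x, Irr T A x ∨ Irr T A' x → c (T x) ≠ c x := by
  classical
  obtain ⟨c, h1, h2⟩ := colour_irr hT hA
  obtain ⟨c', h3, h4⟩ := colour_irr hT hA'
  refine ⟨fun x => if Irr T A x then c x else c' x,
    Measurable.ite (measurableSet_setOfPred.2 (measurable_irr hT hA)) h1 h3, fun x hx => ?_⟩
  simp only [irr_iff]
  split_ifs with h
  exacts [h2 x h, h4 x (hx.resolve_left h)]

theorem colour_desc (hT : Measurable T) {G : ℕ → X → ℕ} (hG : ∀ k, Measurable (G k)) :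
    ∃ c : X → Fin 3, Measurable c ∧ ∀ x, (∀ k, ∀ᶠ n in atTop,
      G (k + 1) (T (T^[n] x)) ≤ G k (T^[n] x) ∧ G (k + 1) (T^[n] x) < G k (T^[n] x)) →
        c (T x) ≠ c x := by
  let good : ℕ → X → Prop := fun k y => ∀ m,
    G (k + 1) (T (T^[m] y)) ≤ G k (T^[m] y) ∧ G (k + 1) (T^[m] y) < G k (T^[m] y)
  let κ : X → ℕ := fun y => sInf {k | ¬ good k y}
  have hκ : Measurable κ := measurable_sInf fun k => (Measurable.forall fun m =>
    (measurable_nat2 ((hG _).comp (hT.comp (hT.iterate m))) ((hG _).comp (hT.iterate m))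
      (· ≤ ·)).and
    (measurable_nat2 ((hG _).comp (hT.iterate m)) ((hG _).comp (hT.iterate m)) (· < ·))).not
  have hb : ∀ y i K, (∀ k < K, good k y) → K - i ≤ G i y := by
    intro y i K h
    have : ∀ m, i + m ≤ K → G (i + m) y + m ≤ G i y := by
      intro m
      induction m with
      | zero => simp
      | succ m ih =>
        intro hm
        have h1 := (h (i + m) (by omega) 0).2
        have h2 := ih (by omega)
        simp only [iterate_zero, id] at h1
        rw [show i + (m + 1) = i + m + 1 by omega]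
        omega
    by_cases h1 : i ≤ K
    · have := this (K - i) (by omega); omega
    · omega
  have hne : ∀ y, ¬ good (κ y) y := fun y => Nat.sInf_mem (s := {k | ¬ good k y}) (by
    by_contra h
    have := hb y 0 (G 0 y + 1) fun k _ => by_contra fun h1 => h ⟨k, h1⟩
    omega)
  have hlt : ∀ y k, k < κ y → good k y := fun y k h => not_not.1 (Nat.notMem_of_lt_sInf h)
  have hle : ∀ y K, (∀ k < K, good k y) → K ≤ κ y := fun y K h =>
    not_lt.1 fun h1 => hne y (h _ h1)
  obtain ⟨c, h1, h2⟩ := colour_irr2 hT (A := fun y => κ (T y) ≤ κ y + 1)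
    (A' := fun y => κ y % 2 = 0) (measurable_nat2 (hκ.comp hT) hκ fun a b => a ≤ b + 1)
    (measurable_nat hκ fun a => a % 2 = 0)
  refine ⟨c, h1, fun x hx => h2 x ?_⟩
  have := seq_irr (κ := fun n => κ (T^[n] x)) (γ := fun n => G n (T^[n] x))
    (fun n => hle _ _ fun k hk m => by
      have := hlt _ k hk (m + 1)
      rwa [iterate_succ_apply, ← iterate_succ_apply' T n x] at this)
    (fun K => by
      have h3 : ∀ᶠ n in atTop, ∀ k ∈ Finset.range K, good k (T^[n] x) :=
        (eventually_all_finset _).2 fun k _ => by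
          obtain ⟨N, hN⟩ := eventually_atTop.1 (hx k)
          refine eventually_atTop.2 ⟨N, fun n hn m => ?_⟩
          rw [← iterate_add_apply]
          exact hN _ (by omega)
      filter_upwards [h3] with n hn using hle _ _ fun k hk => hn k (Finset.mem_range.2 hk))
    (fun n hn => by
      have := (hlt _ n hn 0).1
      rwa [iterate_zero, id, ← iterate_succ_apply' T n x] at this)
    (fun n => hb _ _ _ (hlt _))
  simpa only [Irr, iterate_succ_apply'] using this

open Classical in
/-- the eventual type along the orbit -/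
noncomputable def code (T : X → X) (l : X → ℕ) (Φ : ℕ × ℕ × Finset Nd → (Nd → ℕ) → ℕ) (x : X)
    (t : Tm) : ℕ :=
  if ∀ᶠ n in atTop, ev T l Φ t (T^[n] x) 0 = 0 then 0
  else if ∀ᶠ n in atTop, ¬ ev T l Φ t (T^[n] x) 0 = 0 then 1 else 2

theorem measurable_code (hT : Measurable T) (hl : Measurable l) : Measurable (code T l Φ) := by
  refine measurable_pi_lambda _ fun t => ?_
  have h := measurable_nat (measurable_ev (Φ := Φ) hT hl t 0) (· = 0)
  exact Measurable.ite (measurableSet_setOfPred.2 (measurable_evt hT h)) measurable_const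
    (Measurable.ite (measurableSet_setOfPred.2 (measurable_evt hT h.not)) measurable_const
      measurable_const)

omit [MeasurableSpace X] in
theorem code_step (x : X) : code T l Φ (T x) = code T l Φ x := by
  funext t
  unfold code
  rw [ev_orbit T (fun y => ev T l Φ t y 0 = 0), ev_orbit T (fun y => ¬ ev T l Φ t y 0 = 0)]

omit [MeasurableSpace X] in
theorem code_zero {x : X} {t : Tm} :
    code T l Φ x t = 0 ↔ ∀ᶠ n in atTop, ev T l Φ t (T^[n] x) 0 = 0 := by
  unfold code
  split_ifs with h1 h2 <;> simp [h1]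

omit [MeasurableSpace X] in
theorem code_two {x : X} {t : Tm} :
    code T l Φ x t = 2 ↔ Irr T (fun y => ev T l Φ t y 0 = 0) x := by
  unfold code Irr Filter.Frequently
  simp only [not_not]
  split_ifs with h1 h2
  · simp [h1]
  · simp only [h2]; simp
  · simp only [h1, h2]; simp

/-- the family of names along an orbit whose type class has no finite colouring -/
noncomputable def clone (hT : Measurable T) (hl : Measurable l) (x : X)
    (hx : ¬ ∃ c : X → Fin 3, Measurable c ∧ ∀ y, code T l Φ y = code T l Φ x → c (T y) ≠ c y) :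
    Clone Nd where
  Nm F := ∃ t, ∀ n e, F n e = ev T l Φ t (T^[n] x) e
  var i := ⟨.var i, fun _ _ => rfl⟩
  const c := ⟨.const c, fun _ _ => rfl⟩
  add := fun ⟨a, ha⟩ ⟨b, hb⟩ => ⟨.add a b, fun n e => by simp only [ha, hb]; rfl⟩
  sub := fun ⟨a, ha⟩ ⟨b, hb⟩ => ⟨.sub a b, fun n e => by simp only [ha, hb]; rfl⟩
  upd := fun i ⟨a, ha⟩ ⟨b, hb⟩ => ⟨.upd i a b, fun n e => by simp only [ha, hb]; rfl⟩
  shift := fun ⟨a, ha⟩ => ⟨.sh a, fun n e => by simp only [ha, iterate_succ_apply']; rfl⟩
  mu := fun i ⟨a, ha⟩ ⟨b, hb⟩ => ⟨.mu i a b, fun n e => by simp only [ha, hb]; rfl⟩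
  reg := fun {g} ⟨t, ht⟩ => by
    have h1 : ∀ n, g n = ev T l Φ t (T^[n] x) 0 := fun n => ht n 0
    simp only [h1]
    by_contra h2
    obtain ⟨c, h3, h4⟩ := colour_irr hT (measurable_nat (measurable_ev (Φ := Φ) hT hl t 0) (· = 0))
    refine hx ⟨c, h3, fun y hy => h4 y (code_two.1 ?_)⟩
    rw [hy, code_two]
    rw [not_or] at h2
    exact ⟨h2.2, fun h => h2.1 (by simpa using h)⟩
  wf := by
    rw [wellFounded_iff_isEmpty_descending_chain]
    refine ⟨fun ⟨g, hg⟩ => ?_⟩
    choose t ht using fun k => (hg k).2.1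
    obtain ⟨c, h1, h2⟩ := colour_desc hT (G := fun k y => ev T l Φ (t k) y 0)
      fun k => measurable_ev hT hl _ _
    refine hx ⟨c, h1, fun y hy => h2 y fun k => ?_⟩
    have h3 : code T l Φ y (.sub (.sh (t (k + 1))) (t k)) = 0 := by
      rw [hy, code_zero]
      filter_upwards [(hg k).2.2.2] with n hn
      simp only [ev, ← iterate_succ_apply' T n x, ← ht]
      exact Nat.sub_eq_zero_of_le hn
    have h4 : code T l Φ y (.sub (.add (t (k + 1)) (.const 1)) (t k)) = 0 := by
      rw [hy, code_zero]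
      filter_upwards [(hg k).2.2.2, (hg k).2.2.1] with n hn hn'
      simp only [ev, ← ht]
      omega
    filter_upwards [code_zero.1 h3, code_zero.1 h4] with n h5 h6
    simp only [ev] at h5 h6
    omega

/-- the abstract dichotomy -/
theorem core (hT : Measurable T) (hl : Measurable l) (R : ℕ → ℕ → Prop) {k : ℕ} (hk : 2 ≤ k)
    (B : Set X) (hB : ∀ y ∈ B, T y ∈ B) (hR : ∀ y ∈ B, R (l y) (l (T y))) :
    (∃ h : X → ℝ, Measurable h ∧ (∀ y, h (T y) = h y) ∧
      ∀ x ∈ B, ∃ c : X → Fin 3, Measurable c ∧ ∀ y, h y = h x → c (T y) ≠ c y) ∨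
    ∃ a : (ℕ → ℕ) → ℕ → ℕ, Measurable a ∧ ∀ z, StrictMono z →
      (∀ m, R (a z m) (a z (m + 1))) ∧ a (z ∘ Nat.succ) = fun m => a z (m + k) := by
  classical
  let Φ : ℕ × ℕ × Finset Nd → (Nd → ℕ) → ℕ := fun p e =>
    if Up R k p.1 p.2.1 p.2.2 e then 0 else 1
  have he := MeasureTheory.measurableEmbedding_embeddingReal (Tm → ℕ)
  by_cases h : ∀ x ∈ B, ∃ c : X → Fin 3, Measurable c ∧
      ∀ y, code T l Φ y = code T l Φ x → c (T y) ≠ c y
  · refine Or.inl ⟨_, he.measurable.comp (measurable_code (Φ := Φ) hT hl),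
      fun y => by simp only [comp, code_step], fun x hx => ?_⟩
    obtain ⟨c, h1, h2⟩ := h x hx
    exact ⟨c, h1, fun y hy => h2 y (he.injective hy)⟩
  right
  simp only [not_forall] at h
  obtain ⟨x, hx, h⟩ := h
  have hq : (clone hT hl x h).Ns fun n => l (T^[n] x) := ⟨.lab, fun _ _ => rfl⟩
  have hR' : ∀ n, R (l (T^[n] x)) (l (T^[n + 1] x)) := fun n => by
    rw [iterate_succ_apply']
    refine hR _ ?_
    induction n with
    | zero => exact hx
    | succ n ih => rw [iterate_succ_apply']; exact hB _ ih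
  rcases hq.std_or with ⟨c, hc⟩ | hq'
  · obtain ⟨n, h1, h2⟩ := (hc.and (ev_succ hc)).exists
    have := hR' n
    rw [h1, h2] at this
    exact ⟨fun _ _ => c, measurable_const, fun z _ => ⟨fun _ => this, rfl⟩⟩
  · exact build hk hq hq' hR' fun j f A =>
      ⟨fun _ e => Φ (j, f, A) e, ⟨.std (j, f, A), fun _ _ => rfl⟩, fun _ e => by simp [Φ]⟩

end Pool.Agent.MP_aa180b_lc.H22
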