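import Pool.Agent.MP_aa180b_lc.H22.Names

/-! Recoding an invariant Borel set as the set of paths of a countable digraph, and the main
theorem. -/

set_option autoImplicit false

namespace Pool.Agent.MP_aa180b_lc.H22

open Filter Function

/-- `B` becomes closed after adding a Borel witness -/
def Wit (B : Set (ℕ → ℕ)) : Prop :=
  ∃ w : (ℕ → ℕ) → ℕ → ℕ, Measurable w ∧ ∀ (y : ℕ → ℕ → ℕ) (x u : ℕ → ℕ),
    (∀ᶠ n in atTop, y n ∈ B) → (∀ i, ∀ᶠ n in atTop, y n i = x i) →
      (∀ i, ∀ᶠ n in atTop, w (y n) i = u i) → x ∈ B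

theorem wit_iUnion {B : ℕ → Set (ℕ → ℕ)} (hm : ∀ i, MeasurableSet (B i)) (h : ∀ i, Wit (B i)) :
    Wit (⋃ i, B i) := by
  choose w hw h using h
  let J : (ℕ → ℕ) → ℕ := fun y => sInf {i | y ∈ B i}
  have hJ : Measurable J := measurable_sInf fun i => measurableSet_setOfPred.1 (hm i)
  refine ⟨fun y j => if j = 0 then J y else w (J y) y (j - 1), ?_, fun y x u h1 h2 h3 => ?_⟩
  · refine measurable_pi_lambda _ fun j => ?_
    split_ifs
    · exact hJ
    · exact measurable_at (g := fun i y => w i y (j - 1))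
        (fun i => (measurable_pi_apply _).comp (hw i)) hJ
  · refine Set.mem_iUnion.2 ⟨u 0, h (u 0) y x (fun j => u (j + 1)) ?_ h2 fun j => ?_⟩
    · filter_upwards [h1, h3 0] with n h4 h5
      simp only [if_true] at h5
      rw [← h5]
      exact Nat.sInf_mem (s := {i | y n ∈ B i}) (Set.mem_iUnion.1 h4)
    · filter_upwards [h3 0, h3 (j + 1)] with n h4 h5
      simp only [if_true] at h4
      simpa [h4] using h5

theorem wit_iInter {B : ℕ → Set (ℕ → ℕ)} (h : ∀ i, Wit (B i)) : Wit (⋂ i, B i) := by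
  choose w hw h using h
  refine ⟨fun y j => w j.unpair.1 y j.unpair.2,
    measurable_pi_lambda _ fun j => (measurable_pi_apply _).comp (hw _), fun y x u h1 h2 h3 => ?_⟩
  refine Set.mem_iInter.2 fun i => h i y x (fun j => u (Nat.pair i j)) ?_ h2 fun j => ?_
  · filter_upwards [h1] with n hn using Set.mem_iInter.1 hn i
  · simpa using h3 (Nat.pair i j)

theorem wit_cyl (i : ℕ) (A : Set ℕ) : Wit ((fun y : ℕ → ℕ => y i) ⁻¹' A) := by
  refine ⟨fun _ _ => 0, measurable_const, fun y x u h1 h2 _ => ?_⟩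
  obtain ⟨n, h3, h4⟩ := (h1.and (h2 i)).exists
  simpa [h4] using h3

/-- the sigma algebra of sets with witnesses -/
abbrev wits : MeasurableSpace (ℕ → ℕ) where
  MeasurableSet' B := MeasurableSet B ∧ Wit B ∧ Wit Bᶜ
  measurableSet_empty := by
    have := wit_cyl 0 ∅
    have := wit_cyl 0 ∅ᶜ
    simp_all
  measurableSet_compl B h := ⟨h.1.compl, h.2.2, by rw [compl_compl]; exact h.2.1⟩
  measurableSet_iUnion B h := ⟨MeasurableSet.iUnion fun i => (h i).1,
    wit_iUnion (fun i => (h i).1) fun i => (h i).2.1,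
    by rw [Set.compl_iUnion]; exact wit_iInter fun i => (h i).2.2⟩

theorem wit_of_measurable {B : Set (ℕ → ℕ)} (h : MeasurableSet B) : Wit B := by
  have : @Measurable _ _ wits MeasurableSpace.pi id :=
    @measurable_pi_lambda _ _ _ wits _ id fun i A _ =>
      ⟨measurable_pi_apply i (MeasurableSet.of_discrete), wit_cyl i A, wit_cyl i Aᶜ⟩
  exact (this h).2.1

theorem measurable_list {X σ : Type*} [MeasurableSpace X] {F : σ → X → ℕ}
    (hF : ∀ s, Measurable (F s)) (l : List σ) (g : List ℕ → ℕ) :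
    Measurable fun x => g (l.map fun s => F s x) := by
  induction l generalizing g with
  | nil => exact measurable_const (a := g [])
  | cons s l ih =>
    exact measurable_at (g := fun v x => g (v :: l.map fun s => F s x))
      (fun v => ih fun t => g (v :: t)) (hF s)

theorem finite_pasts (M : ℕ) :
    {p : List ℕ × ℕ | p.1.length ≤ M ∧ (∀ a ∈ p.1, a < M) ∧ p.2 ≤ M}.Finite := by
  refine (((List.finite_length_le (Fin M) M).image (List.map Fin.val)).prod
    (Set.finite_le_nat M)).subset ?_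
  rintro ⟨l, i⟩ ⟨h1, h2, h3⟩
  lift l to List (Fin M) using h2
  exact ⟨⟨l, by simpa using h1, rfl⟩, h3⟩

/-- concatenation -/
def cat (s : List ℕ) (y : ℕ → ℕ) (i : ℕ) : ℕ := if i < s.length then s.getD i 0 else y (i - s.length)

theorem measurable_cat (s : List ℕ) : Measurable (cat s) := by
  refine measurable_pi_lambda _ fun i => ?_
  unfold cat
  split_ifs
  exacts [measurable_const, measurable_pi_apply _]

theorem cat_range (x y : ℕ → ℕ) (n i : ℕ) :
    cat ((List.range n).map x) y i = if i < n then x i else y (i - n) := by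
  unfold cat
  simp only [List.length_map, List.length_range]
  split_ifs with h
  · simp [h]
  · rfl

theorem recode {B : Set (ℕ → ℕ)} (hB : MeasurableSet B) (hs : ∀ x ∈ B, StrictMono x)
    (hi : ∀ x y : ℕ → ℕ, StrictMono x → StrictMono y →
      (∃ m n : ℕ, ∀ k : ℕ, x (m + k) = y (n + k)) → (x ∈ B ↔ y ∈ B)) :
    ∃ l : (ℕ → ℕ) → ℕ, Measurable l ∧ ∀ a : ℕ → ℕ,
      (∀ n, ∃ y ∈ B, l y = a n ∧ l (y ∘ Nat.succ) = a (n + 1)) →
        (fun n => (a n).unpair.1) ∈ B := by
  obtain ⟨w, hw, h⟩ := wit_of_measurable hB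
  let P : ℕ → List (List ℕ × ℕ) := fun M => (finite_pasts M).toFinset.toList
  let l : (ℕ → ℕ) → ℕ := fun y =>
    Nat.pair (y 0) (Encodable.encode ((P (y 0)).map fun p => w (cat p.1 y) p.2))
  have hl : ∀ y y', l y = l y' → y 0 = y' 0 ∧ ∀ p : List ℕ × ℕ,
      p.1.length ≤ y 0 → (∀ a ∈ p.1, a < y 0) → p.2 ≤ y 0 →
        w (cat p.1 y) p.2 = w (cat p.1 y') p.2 := by
    intro y y' h1
    obtain ⟨h2, h3⟩ := Nat.pair_eq_pair.1 h1
    refine ⟨h2, fun p h4 h5 h6 => ?_⟩
    rw [← h2] at h3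
    exact List.map_inj_left.1 (Encodable.encode_injective h3) p (by simpa [P] using ⟨h4, h5, h6⟩)
  refine ⟨l, ?_, fun a ha => ?_⟩
  · exact measurable_at
      (g := fun M y => Nat.pair M (Encodable.encode ((P M).map fun p => w (cat p.1 y) p.2)))
      (fun M => measurable_list (F := fun (p : List ℕ × ℕ) y => w (cat p.1 y) p.2)
        (fun p => (measurable_pi_apply _).comp (hw.comp (measurable_cat _))) _
        fun t => Nat.pair M (Encodable.encode t))
      (measurable_pi_apply 0)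
  choose y hy h1 h2 using ha
  have h3 : (fun n => (a n).unpair.1) = fun n => y n 0 := by
    funext n
    rw [← h1 n]
    simp [l]
  rw [h3]
  set x : ℕ → ℕ := fun n => y n 0 with hx
  have h4 := fun n => hl _ _ ((h1 (n + 1)).trans (h2 n).symm)
  have h5 : StrictMono x := strictMono_nat_of_lt_succ fun n => by
    have := (h4 n).1
    have h6 := hs _ (hy n) (Nat.succ_pos 0)
    simp only [comp] at this
    simp only [hx]
    omega
  let Y : ℕ → ℕ → ℕ := fun n => cat ((List.range n).map x) (y n)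
  have h6 : ∀ n i, i ≤ n → w (Y (n + 1)) i = w (Y n) i := by
    intro n i hin
    have h7 : n + 1 ≤ x (n + 1) := h5.id_le _
    have h8 := (h4 n).2 ((List.range (n + 1)).map x, i) (by simpa using h7)
      (by
        intro a ha
        obtain ⟨j, hj, rfl⟩ := List.mem_map.1 ha
        exact h5 (List.mem_range.1 hj)) (by simp only [hx] at h7; simp only; omega)
    refine h8.trans ?_
    congr 1
    funext j
    simp only [Y, cat_range, comp]
    split_ifs with h9 h10 h10
    · rfl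
    · rw [show j = n by omega]; simp [hx]
    · omega
    · exact congrArg _ (by omega)
  refine h Y x (fun i => w (Y i) i) (Eventually.of_forall fun n => ?_) (fun i => ?_) fun i => ?_
  · refine (hi _ _ (strictMono_nat_of_lt_succ fun j => ?_) (hs _ (hy n)) ⟨n, 0, fun k => ?_⟩).2
      (hy n)
    · simp only [Y, cat_range]
      split_ifs with h9 h10 h10
      · exact h5 (by omega)
      · rw [show j + 1 - n = 0 by omega]
        exact h5 h9
      · omega
      · exact hs _ (hy n) (by omega)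
    · simp [Y, cat_range]
  · filter_upwards [eventually_gt_atTop i] with n hn
    simp [Y, cat_range, hn]
  · filter_upwards [eventually_ge_atTop i] with n hn
    induction n, hn using Nat.le_induction with
    | base => rfl
    | succ n hn ih => rw [h6 n i hn, ih]

/-- the `r`-fold shift -/
def shf (r : ℕ) (y : ℕ → ℕ) : ℕ → ℕ := fun i => y (i + r)

theorem measurable_shf (r : ℕ) : Measurable (shf r) :=
  measurable_pi_lambda _ fun _ => measurable_pi_apply _

theorem shf_shf (a b : ℕ) (y : ℕ → ℕ) : shf a (shf b y) = shf (a + b) y := by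
  funext i; simp [shf, Nat.add_assoc]

theorem smooth_of_power {r : ℕ} (hr : 1 ≤ r) {B : Set (ℕ → ℕ)} (hB : ∀ y ∈ B, ∀ i, shf i y ∈ B)
    {h : (ℕ → ℕ) → ℝ} (h1 : Measurable h) (h2 : ∀ y, h (shf r y) = h y)
    (h3 : ∀ x ∈ B, ∃ c : (ℕ → ℕ) → Fin 3, Measurable c ∧ ∀ y, h y = h x → c (shf r y) ≠ c y) :
    ∃ h : (ℕ → ℕ) → ℝ, Measurable h ∧
      (∀ x y : ℕ → ℕ, (∃ m n : ℕ, ∀ k : ℕ, x (m + k) = y (n + k)) → h x = h y) ∧
      ∀ x ∈ B, ∃ c : (ℕ → ℕ) → Fin 3, Measurable c ∧ ∀ y, h y = h x → c (shf r y) ≠ c y := by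
  let H : (ℕ → ℕ) → ℝ := fun y => ⨅ i : ℕ, h (shf i y)
  have h4 : ∀ y i, h (shf (i + r) y) = h (shf i y) := fun y i => by
    rw [Nat.add_comm, ← shf_shf, h2]
  have h5 : ∀ y i m, h (shf (i + r * m) y) = h (shf i y) := fun y i m => by
    induction m with
    | zero => rfl
    | succ m ih => rw [Nat.mul_succ, ← Nat.add_assoc, h4, ih]
  have h6 : ∀ y m, H (shf m y) = H y := fun y m => by
    refine congrArg sInf (Set.Subset.antisymm ?_ ?_)
    · rintro _ ⟨i, rfl⟩
      exact ⟨i + m, by simp only [shf_shf]⟩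
    · rintro _ ⟨i, rfl⟩
      have : m ≤ r * m := Nat.le_mul_of_pos_left _ hr
      exact ⟨i + r * m - m, by
        simp only [shf_shf]
        rw [show i + r * m - m + m = i + r * m by omega, h5]⟩
  have h7 : ∀ y, ∃ i, h (shf i y) = H y := fun y => by
    refine Set.Nonempty.csInf_mem (Set.range_nonempty fun i => h (shf i y)) ?_
    refine ((Set.finite_lt_nat r).image fun i => h (shf i y)).subset ?_
    rintro _ ⟨i, rfl⟩
    refine ⟨i % r, Nat.mod_lt _ hr, ?_⟩
    beta_reduce
    rw [← h5 y (i % r) (i / r), Nat.mod_add_div]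
  refine ⟨H, Measurable.iInf fun i => h1.comp (measurable_shf i), ?_, fun x hx => ?_⟩
  · rintro x y ⟨m, n, hk⟩
    rw [← h6 x m, ← h6 y n]
    congr 1
    funext k
    simpa [shf, Nat.add_comm] using hk k
  · obtain ⟨i, hi⟩ := h7 x
    obtain ⟨c, h8, h9⟩ := h3 _ (hB x hx i)
    let J : (ℕ → ℕ) → ℕ := fun y => sInf {j | h (shf j y) = H x}
    have hJ : Measurable J := measurable_sInf fun j =>
      measurableSet_setOfPred.1 ((h1.comp (measurable_shf j)) (measurableSet_singleton (H x)))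
    refine ⟨fun y => c (shf (J y) y), measurable_at (g := fun j y => c (shf j y))
      (fun j => h8.comp (measurable_shf j)) hJ, fun y hy => ?_⟩
    have h10 : J (shf r y) = J y := by simp only [J, shf_shf, h4]
    have h11 : h (shf (J y) y) = H x :=
      Nat.sInf_mem (s := {j | h (shf j y) = H x}) (by rw [← hy]; exact h7 y)
    have := h9 _ (h11.trans hi.symm)
    beta_reduce
    rwa [h10, shf_shf, Nat.add_comm, ← shf_shf]

/-- the main dichotomy -/
theorem main {r k : ℕ} (hr : 1 ≤ r) (hk : 2 ≤ k) {B : Set (ℕ → ℕ)} (hB : MeasurableSet B)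
    (hs : ∀ x ∈ B, StrictMono x)
    (hi : ∀ x y : ℕ → ℕ, StrictMono x → StrictMono y →
      (∃ m n : ℕ, ∀ k : ℕ, x (m + k) = y (n + k)) → (x ∈ B ↔ y ∈ B)) :
    (∃ h : (ℕ → ℕ) → ℝ, Measurable h ∧
      (∀ x y : ℕ → ℕ, (∃ m n : ℕ, ∀ k : ℕ, x (m + k) = y (n + k)) → h x = h y) ∧
      ∀ x ∈ B, ∃ c : (ℕ → ℕ) → Fin 3, Measurable c ∧ ∀ y, h y = h x → c (shf r y) ≠ c y) ∨
    ∃ φ : (ℕ → ℕ) → (ℕ → ℕ), Measurable φ ∧ ∀ x : ℕ → ℕ, StrictMono x →
      φ x ∈ B ∧ φ (x ∘ Nat.succ) = shf (r * k) (φ x) := by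
  obtain ⟨l, hl, h⟩ := recode hB hs hi
  have hsh : ∀ y ∈ B, ∀ i, shf i y ∈ B := fun y hy i =>
    (hi _ _ (fun a b hab => hs y hy (by omega)) (hs y hy)
      ⟨0, i, fun k => congrArg y (by omega)⟩).2 hy
  let L : (ℕ → ℕ) → ℕ := fun y => Encodable.encode ((List.range r).map fun i => l (shf i y))
  have hL : Measurable L := measurable_list (F := fun i y => l (shf i y))
    (fun i => hl.comp (measurable_shf i)) _ _
  let dec : ℕ → ℕ → ℕ := fun c i => (Denumerable.ofNat (List ℕ) c).getD i 0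
  have hdec : ∀ y, ∀ i < r, dec (L y) i = l (shf i y) := fun y i hi => by
    simp [dec, L, hi]
  rcases core (measurable_shf r) hL (fun a b => ∃ y ∈ B, L y = a ∧ L (shf r y) = b) hk B
    (fun y hy => hsh y hy r) (fun y hy => ⟨y, hy, rfl, rfl⟩) with ⟨h0, h1, h2, h3⟩ | ⟨a, h1, h2⟩
  · exact Or.inl (smooth_of_power hr hsh h1 h2 h3)
  refine Or.inr ⟨fun z m => (dec (a z (m / r)) (m % r)).unpair.1, ?_, fun z hz => ⟨?_, ?_⟩⟩
  · exact measurable_pi_lambda _ fun m => measurable_nat ((measurable_pi_apply _).comp h1)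
      fun c => (dec c (m % r)).unpair.1
  · refine h (fun m => dec (a z (m / r)) (m % r)) fun m => ?_
    obtain ⟨y, hy, h3, h4⟩ := (h2 z hz).1 (m / r)
    have h5 := Nat.mod_lt m hr
    have h6 := Nat.mod_add_div m r
    have h7 : shf (m % r) y ∘ Nat.succ = shf (m % r + 1) y := by
      funext i
      exact congrArg y (by simp only [Nat.succ_eq_add_one]; omega)
    refine ⟨shf (m % r) y, hsh y hy _, by rw [← h3, hdec _ _ h5], ?_⟩
    rw [h7]
    by_cases h8 : m % r + 1 = r
    · have h9 : (m + 1) / r = m / r + 1 ∧ (m + 1) % r = 0 :=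
        (Nat.div_mod_unique hr).2 ⟨by rw [Nat.mul_succ]; omega, by omega⟩
      rw [h9.1, h9.2, ← h4, hdec _ _ hr, h8, shf_shf, Nat.zero_add]
    · have h9 : (m + 1) / r = m / r ∧ (m + 1) % r = m % r + 1 :=
        (Nat.div_mod_unique hr).2 ⟨by omega, by omega⟩
      rw [h9.1, h9.2, ← h3, hdec _ _ (by omega)]
  · funext m
    simp only [(h2 z hz).2, shf, Nat.add_mul_div_left _ _ hr, Nat.add_mul_mod_self_left]

end Pool.Agent.MP_aa180b_lc.H22
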