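import Pool.Agent.MP_aa180b_lc.H22.Tuple

/-! One sub-step of the construction of an array. -/

set_option autoImplicit false

namespace Pool.Agent.MP_aa180b_lc.H22

open Filter Function Clone

/-- nodes -/
abbrev Nd : Type := Finset ℕ × ℕ

/-- remove the least element -/
def tl (s : Finset ℕ) : Finset ℕ := s.filter fun x => ∃ y ∈ s, y < x

/-- the parent of a node -/
def par (k : ℕ) (v : Nd) : Nd := if v.2 + 1 = k ∧ v.1 ≠ ∅ then (tl v.1, 0) else (v.1, v.2 + 1)

/-- the nodes present at stage `j`, sub-step `f` -/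
def Dom (k j f : ℕ) : Finset Nd :=
  (((Finset.range j).powerset.erase ∅) ×ˢ Finset.range k) ∪ ({∅} ×ˢ Finset.range f)

theorem mem_dom {k j f : ℕ} {v : Nd} : v ∈ Dom k j f ↔
    (v.1 ≠ ∅ ∧ v.1 ⊆ Finset.range j ∧ v.2 < k) ∨ (v.1 = ∅ ∧ v.2 < f) := by
  simp only [Dom, Finset.mem_union, Finset.mem_product, Finset.mem_erase, Finset.mem_powerset,
    Finset.mem_range, Finset.mem_singleton, and_assoc]

theorem mem_dom_succ {k j f : ℕ} {v : Nd} : v ∈ Dom k j (f + 1) ↔ v = (∅, f) ∨ v ∈ Dom k j f := by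
  rcases v with ⟨s, i⟩
  simp only [mem_dom, Prod.mk.injEq]
  by_cases hs : s = ∅
  · simp [hs]; omega
  · simp [hs]

theorem top_not_mem {k j f : ℕ} : ((∅, f) : Nd) ∉ Dom k j f := by simp [mem_dom]

theorem tl_subset (s : Finset ℕ) : tl s ⊆ s := Finset.filter_subset _ _

theorem par_mem {k j f : ℕ} {v : Nd} (h : v ∈ Dom k j f) : par k v ∈ Dom k j (f + 1) := by
  rcases v with ⟨s, i⟩
  simp only [mem_dom, par] at h ⊢
  split_ifs with h1
  · by_cases h2 : tl s = ∅
    · simp [h2]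
    · rcases h with h | h
      · exact Or.inl ⟨h2, (tl_subset s).trans h.2.1, by omega⟩
      · exact absurd h.1 h1.2
  · rcases h with h | h
    · refine Or.inl ⟨h.1, h.2.1, ?_⟩
      have : i + 1 ≠ k := fun h2 => h1 ⟨h2, h.1⟩
      omega
    · exact Or.inr ⟨h.1, by omega⟩

/-- the pattern can be realised below the bounds `e`, exactly on `A` -/
def Up (R : ℕ → ℕ → Prop) (k j f : ℕ) (A : Finset Nd) (e : Nd → ℕ) : Prop :=
  ∃ L : Nd → ℕ, L (∅, f) = e (∅, f) ∧
    ∀ v ∈ Dom k j f, R (L v) (L (par k v)) ∧ L v ≤ e v ∧ (v ∈ A → L v = e v)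

theorem Up.congr {R : ℕ → ℕ → Prop} {k j f : ℕ} {A : Finset Nd} {e e' : Nd → ℕ}
    (h : Up R k j f A e) (he : ∀ v ∈ Dom k j (f + 1), e v = e' v) : Up R k j f A e' := by
  obtain ⟨L, h1, h2⟩ := h
  refine ⟨L, h1.trans (he _ (mem_dom_succ.2 (Or.inl rfl))), fun v hv => ?_⟩
  rw [← he v (mem_dom_succ.2 (Or.inr hv))]
  exact h2 v hv

/-- statuses -/
abbrev St : Type := ℕ ⊕ ((ℕ → ℕ) × ℕ)

/-- the constraint given by a status -/
def ok : St → ℕ → ℕ → Prop
  | Sum.inl c, _, x => x = c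
  | Sum.inr p, n, x => x ≤ p.1 (n + p.2)

/-- the well-founded order of statuses -/
def StLt (C : Clone Nd) : St → St → Prop :=
  Sum.Lex (fun _ _ => False) (Prod.Lex C.Bel (· < ·))

theorem wf_stLt (C : Clone Nd) : WellFounded (StLt C) :=
  Sum.lex_wf emptyWf.wf (WellFounded.prod_lex C.wf_bel wellFounded_lt)

/-- fixed and unchanged, or smaller -/
def Dec (C : Clone Nd) (a b : St) : Prop :=
  (∃ c, a = Sum.inl c ∧ b = Sum.inl c) ∨ Relation.TransGen (StLt C) a b

theorem Dec.trans {C : Clone Nd} {a b c : St} (h : Dec C a b) (h' : Dec C b c) : Dec C a c := by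
  rcases h with ⟨x, rfl, rfl⟩ | h
  · exact h'
  · rcases h' with ⟨x, rfl, rfl⟩ | h'
    · exact Or.inr h
    · exact Or.inr (h.trans h')

theorem Dec.eq_of_inl {C : Clone Nd} {a : St} {c : ℕ} (h : Dec C a (Sum.inl c)) :
    a = Sum.inl c := by
  rcases h with ⟨x, rfl, h⟩ | h
  · exact h.symm
  · exfalso
    obtain ⟨b, -, hb⟩ := Relation.TransGen.tail'_iff.1 h
    cases hb with
    | inl h => exact h

/-- the status is a limit point with the right residue -/
def Res (C : Clone Nd) (k f : ℕ) (a : St) : Prop :=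
  ∀ E m, a = Sum.inr (E, m) → C.Lim E ∧ (f + m) % k = C.sg E

/-- the invariant of the construction -/
def Inv (C : Clone Nd) (R : ℕ → ℕ → Prop) (q : ℕ → ℕ) (k j f : ℕ) (st : Nd → St) : Prop :=
  (∀ v ∈ Dom k j f, Res C k f (st v)) ∧
    ∀ᶠ n in atTop, ∃ L : Nd → ℕ, L (∅, f) = q n ∧
      ∀ v ∈ Dom k j f, R (L v) (L (par k v)) ∧ ok (st v) n (L v)

theorem exists_res {k d : ℕ} (hd : d < k) (f m : ℕ) : ∃ m', m ≤ m' ∧ (f + m') % k = d := by
  refine ⟨(f + m + 1) * k + d - f, ?_, ?_⟩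
  · have : f + m + 1 ≤ (f + m + 1) * k := Nat.le_mul_of_pos_right _ (by omega)
    omega
  · have : f + m + 1 ≤ (f + m + 1) * k := Nat.le_mul_of_pos_right _ (by omega)
    rw [show f + ((f + m + 1) * k + d - f) = d + (f + m + 1) * k by omega,
      Nat.add_mul_mod_self_right, Nat.mod_eq_of_lt hd]

variable {C : Clone Nd} {R : ℕ → ℕ → Prop} {q : ℕ → ℕ} {k : ℕ}

theorem ladder_res (hk : 2 ≤ k) (f : ℕ) {x : ℕ → ℕ} (hx : C.Ns x) (hx' : NonStd x) :
    ∃ E m, C.Lim E ∧ (f + m) % k = C.sg E ∧ (∀ᶠ n in atTop, E n ≤ x n) ∧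
      ∀ᶠ n in atTop, x n ≤ E (n + m) := by
  obtain ⟨E, m, h1, h2, h3⟩ := ladder hx hx'
  obtain ⟨m', h4, h5⟩ := exists_res ((sg_lt (C := C) E).trans_le hk) f m
  refine ⟨E, m', h1, h5, h2, ?_⟩
  filter_upwards [h3, h1.2.1.le_add m m' h4] with n h6 h7 using h6.trans h7

theorem up_reg (hUp : ∀ j f A, C.NmP fun _ e => Up R k j f A e) (j f : ℕ) (A : Finset Nd)
    (b : Nd → ℕ → ℕ) (hb : ∀ v ∈ Dom k j (f + 1), C.Ns (b v)) :
    (∀ᶠ n in atTop, Up R k j f A fun v => b v n) ∨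
      ∀ᶠ n in atTop, ¬ Up R k j f A fun v => b v n := by
  obtain ⟨F, hF, h⟩ := (hUp j f A).fill _ b hb
  refine NmP.reg (C := C) ⟨F, hF, fun n e => Iff.trans ⟨fun h1 => ?_, fun h1 => ?_⟩ (h n e)⟩
  · exact h1.congr fun v hv => by simp [hv]
  · exact h1.congr fun v hv => by simp [hv]

theorem fix_std (hUp : ∀ j f A, C.NmP fun _ e => Up R k j f A e) (j f : ℕ) (A T : Finset Nd)
    (hT : (∅, f) ∉ T) (b : Nd → ℕ → ℕ) (hb : ∀ v ∈ Dom k j (f + 1), C.Ns (b v))
    (hs : ∀ v ∈ T, ∃ c, ∀ᶠ n in atTop, b v n = c)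
    (h : ∀ᶠ n in atTop, Up R k j f A fun v => b v n) :
    ∃ c : Nd → ℕ, ∀ᶠ n in atTop, Up R k j f (A ∪ T) fun v => if v ∈ T then c v else b v n := by
  choose! c0 hc0 using hs
  by_contra hno
  have h1 : ∀ g : T → Fin (T.sup c0 + 1), ∀ᶠ n in atTop, ¬ Up R k j f (A ∪ T)
      fun v => if v ∈ T then (if h : v ∈ T then (g ⟨v, h⟩ : ℕ) else 0) else b v n := by
    intro g
    refine (up_reg hUp j f (A ∪ T)
      (fun v n => if v ∈ T then (if h : v ∈ T then (g ⟨v, h⟩ : ℕ) else 0) else b v n)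
      fun v hv => ?_).resolve_left fun h2 => hno ⟨_, h2⟩
    by_cases hv' : v ∈ T
    · simp only [if_pos hv']; exact ns_const _
    · simp only [if_neg hv']; exact hb v hv
  refine ev_false ?_
  filter_upwards [eventually_all.2 h1, h, (eventually_all_finset T).2 hc0] with n h2 h3 h4
  obtain ⟨L, h5, h6⟩ := h3
  refine h2 (fun v => ⟨min (L v) (T.sup c0), by omega⟩) ⟨L, by simpa [hT] using h5, fun v hv => ?_⟩
  obtain ⟨h7, h8, h9⟩ := h6 v hv
  by_cases hv' : v ∈ T
  · have h10 : L v ≤ T.sup c0 := h8.trans ((h4 v hv').le.trans (Finset.le_sup hv'))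
    simp [hv', h7, h10]
  · simpa [hv', h7, h8] using h9

/-- the limit point in a status -/
def stE : St → ℕ → ℕ
  | Sum.inl _ => fun _ => 0
  | Sum.inr p => p.1

/-- the bound of a status one time unit later -/
def stB : St → ℕ → ℕ
  | Sum.inl c => fun _ => c
  | Sum.inr p => fun n => p.1 (n + (p.2 - 1))

theorem substep (hk : 2 ≤ k) (hq : C.Ns q) (hq' : NonStd q) (hR : ∀ n, R (q n) (q (n + 1)))
    (hUp : ∀ j f A, C.NmP fun _ e => Up R k j f A e) {j f : ℕ} {st : Nd → St}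
    (h : Inv C R q k j f st) :
    ∃ st', Inv C R q k j (f + 1) st' ∧ ∀ v ∈ Dom k j f, Dec C (st' v) (st v) := by
  classical
  obtain ⟨hres, hlab⟩ := h
  obtain ⟨E0, m0, hE0, hm0, -, hq0⟩ := ladder_res hk (f + 1) hq hq'
  set T := (Dom k j f).filter fun v => ∃ E, st v = Sum.inr (E, 0) with hT
  set A := (Dom k j f).filter fun v => ∃ c, st v = Sum.inl c with hA
  set b0 : Nd → ℕ → ℕ := fun v n =>
    if v = (∅, f + 1) then q n else if v = (∅, f) then E0 (n + m0) else stB (st v) n with hb0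
  have ht1 : ((∅, f + 1) : Nd) ∉ Dom k j (f + 1) := top_not_mem
  have ht0 : ((∅, f) : Nd) ∉ Dom k j f := top_not_mem
  have hne0 : ∀ v ∈ Dom k j f, v ≠ (∅, f) := fun v hv h => ht0 (h ▸ hv)
  have hne1 : ∀ v ∈ Dom k j (f + 1), v ≠ (∅, f + 1) := fun v hv h => ht1 (h ▸ hv)
  have hsub : ∀ v ∈ Dom k j f, v ∈ Dom k j (f + 1) := fun v hv => mem_dom_succ.2 (Or.inr hv)
  have hb0' : ∀ v ∈ Dom k j f, b0 v = stB (st v) := fun v hv => by
    funext n; simp [hb0, hne0 v hv, hne1 v (hsub v hv)]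
  have hb0t0 : b0 (∅, f) = fun n => E0 (n + m0) := by funext n; simp [hb0]
  have hb0t1 : b0 (∅, f + 1) = q := by funext n; simp [hb0]
  have hb0n : ∀ v ∈ Dom k j (f + 1 + 1), C.Ns (b0 v) := by
    intro v hv
    rcases mem_dom_succ.1 hv with rfl | hv
    · rw [hb0t1]; exact hq
    rcases mem_dom_succ.1 hv with rfl | hv
    · rw [hb0t0]; exact hE0.1.shs m0
    rw [hb0' v hv]
    rcases hs : st v with c | ⟨E, m⟩
    · exact ns_const c
    · exact (hres v hv E m hs).1.1.shs _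
  have hTE : ∀ v ∈ T, st v = Sum.inr (stE (st v), 0) := fun v hv => by
    obtain ⟨E, hE⟩ := (Finset.mem_filter.1 hv).2
    rw [hE]; rfl
  have hTD : ∀ v ∈ T, v ∈ Dom k j f := fun v hv => (Finset.mem_filter.1 hv).1
  have hTL : ∀ v ∈ T, C.Lim (stE (st v)) := fun v hv => (hres v (hTD v hv) _ _ (hTE v hv)).1
  have hTA : ∀ v ∈ T, v ∉ A := fun v hv h => by
    obtain ⟨c, hc⟩ := (Finset.mem_filter.1 h).2
    have := hTE v hv
    rw [hc] at this
    cases this
  have ht1T : ((∅, f + 1) : Nd) ∉ T := fun h => ht1 (hsub _ (hTD _ h))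
  -- the tuple lemma
  obtain ⟨a, ha, hP⟩ := tuple (C := C) (E := fun v => stE (st v)) T hTL
    (fun v hv w hw => not_tie_of_sg (hTL v hv) (hTL w hw)
      ((hres v (hTD v hv) _ _ (hTE v hv)).2.symm.trans (hres w (hTD w hw) _ _ (hTE w hw)).2))
    (fun n e => Up R k j (f + 1) A fun v => if v ∈ Dom k j (f + 1 + 1) \ T then b0 v n else e v)
    ((hUp j (f + 1) A).fill _ b0 fun v hv => hb0n v (Finset.mem_sdiff.1 hv).1)
    (by
      rintro n e e' he ⟨L, h1, h2⟩
      refine ⟨L, by simpa [mem_dom_succ, ht1T] using h1, fun v hv => ?_⟩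
      obtain ⟨h3, h4, h5⟩ := h2 v hv
      have hv' : v ∈ Dom k j (f + 1 + 1) := mem_dom_succ.2 (Or.inr hv)
      by_cases hvT : v ∈ T
      · refine ⟨h3, ?_, fun h => absurd h (hTA v hvT)⟩
        simp only [Finset.mem_sdiff, hvT, not_true, and_false, if_false] at h4 ⊢
        exact h4.trans (he v hvT)
      · simp only [Finset.mem_sdiff, hvT, hv', not_false_iff, and_true, if_true] at h4 h5 ⊢
        exact ⟨h3, h4, h5⟩)
    (by
      intro b hb
      have h1 : ∀ᶠ n in atTop, ∀ v ∈ T, stE (st v) n < b v (n + 1) :=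
        (eventually_all_finset _).2 fun v hv => lt_of_not_lo (hTL v hv).1 (hb v hv).1 (hb v hv).2
      refine ev_of_succ ?_
      filter_upwards [hlab, h1, hq', ev_succ hq0] with n ⟨L, h2, h3⟩ h4 h5 h6
      refine ⟨update L (∅, f + 1) (q (n + 1)), by simp [mem_dom_succ, ht1T, hb0t1], fun v hv => ?_⟩
      have hv' : v ∈ Dom k j (f + 1 + 1) := mem_dom_succ.2 (Or.inr hv)
      rw [update_of_ne (hne1 v hv)]
      rcases mem_dom_succ.1 hv with rfl | hvD
      · have h7 : ((∅, f) : Nd) ∉ T := fun h => ht0 (hTD _ h)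
        have h8 : ((∅, f) : Nd) ∉ A := fun h => ht0 (Finset.mem_filter.1 h).1
        have h9 : par k (∅, f) = (∅, f + 1) := by simp [par]
        simp only [h9, update_self, h2, hR, Finset.mem_sdiff, hv', h7, h8, hb0t0, not_false_iff,
          and_self, if_true, true_and, IsEmpty.forall_iff, and_true]
        omega
      rw [update_of_ne (hne1 _ (par_mem hvD))]
      obtain ⟨h7, h8⟩ := h3 v hvD
      refine ⟨h7, ?_⟩
      by_cases hvT : v ∈ T
      · simp only [Finset.mem_sdiff, hvT, not_true, and_false, if_false]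
        refine ⟨?_, fun h => absurd h (hTA v hvT)⟩
        rw [hTE v hvT] at h8
        have := h4 v hvT
        simp only [ok, Nat.add_zero] at h8
        omega
      · simp only [Finset.mem_sdiff, hvT, hv', not_false_iff, and_true, if_true, hb0' v hvD]
        rcases hs : st v with c | ⟨E, m⟩
        · rw [hs] at h8
          simp only [ok] at h8
          simp [stB, h8]
        · rw [hs] at h8
          have hm : m ≠ 0 := fun h => hvT (Finset.mem_filter.2 ⟨hvD, E, by rw [hs, h]⟩)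
          refine ⟨?_, fun h => ?_⟩
          · simp only [ok] at h8
            simp only [stB]
            rwa [show n + 1 + (m - 1) = n + m by omega]
          · obtain ⟨c, hc⟩ := (Finset.mem_filter.1 h).2
            rw [hs] at hc
            cases hc)
  -- fix the standard coordinates
  set T0 := T.filter fun v => ∃ c, ∀ᶠ n in atTop, a v n = c with hT0
  set b1 : Nd → ℕ → ℕ := fun v n => if v ∈ Dom k j (f + 1 + 1) \ T then b0 v n else a v n with hb1
  have hb1T : ∀ v ∈ T, b1 v = a v := fun v hv => by funext n; simp [hb1, hv]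
  have hb1N : ∀ v ∈ Dom k j (f + 1 + 1), v ∉ T → b1 v = b0 v := fun v hv hv' => by
    funext n; simp [hb1, hv, hv']
  have ht1T0 : ((∅, f + 1) : Nd) ∉ T0 := fun h => ht1T (Finset.mem_filter.1 h).1
  obtain ⟨c, hc⟩ := fix_std hUp j (f + 1) A T0 ht1T0 b1
    (fun v hv => by
      by_cases hvT : v ∈ T
      · rw [hb1T v hvT]; exact (ha v hvT).1
      · rw [hb1N v hv hvT]; exact hb0n v hv)
    (fun v hv => by
      rw [hb1T v (Finset.mem_filter.1 hv).1]; exact (Finset.mem_filter.1 hv).2) hP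
  have key : ∀ v ∈ Dom k j (f + 1), ∃ s' : St, Res C k (f + 1) s' ∧
      (v ∈ Dom k j f → Dec C s' (st v)) ∧ ∀ᶠ n in atTop, ∀ x,
        x ≤ (if v ∈ T0 then c v else b1 v n) →
          (v ∈ A ∪ T0 → x = if v ∈ T0 then c v else b1 v n) → ok s' n x := by
    intro v hv
    have hv' : v ∈ Dom k j (f + 1 + 1) := mem_dom_succ.2 (Or.inr hv)
    by_cases hv0 : v ∈ T0
    · refine ⟨Sum.inl (c v), fun E m h => (by cases h), fun _ => ?_,
        Eventually.of_forall fun n x _ h => by simpa [hv0, ok] using h⟩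
      rw [hTE v (Finset.mem_filter.1 hv0).1]
      exact Or.inr (Relation.TransGen.single (Sum.Lex.sep _ _))
    simp only [if_neg hv0]
    by_cases hvT : v ∈ T
    · have h1 : NonStd (a v) :=
        (ha v hvT).1.std_or.resolve_left fun h => hv0 (Finset.mem_filter.2 ⟨hvT, h⟩)
      obtain ⟨E, m, h2, h3, h4, h5⟩ := ladder_res hk (f + 1) (ha v hvT).1 h1
      refine ⟨Sum.inr (E, m), fun E' m' h => (by cases h; exact ⟨h2, h3⟩), fun _ => ?_, ?_⟩
      · rw [hTE v hvT]
        refine Or.inr (Relation.TransGen.single (Sum.Lex.inr (Prod.Lex.left _ _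
          ⟨h2.1, (hTL v hvT).1, h2.2.1, ?_⟩)))
        filter_upwards [ev_succ h4, (ha v hvT).2] with n h6 h7 using h6.trans h7
      · filter_upwards [h5] with n h6 x h7 _
        rw [hb1T v hvT] at h7
        exact h7.trans h6
    rw [hb1N v hv' hvT]
    rcases mem_dom_succ.1 hv with rfl | hvD
    · refine ⟨Sum.inr (E0, m0), fun E' m' h => (by cases h; exact ⟨hE0, hm0⟩),
        fun h => absurd h ht0, Eventually.of_forall fun n x h _ => ?_⟩
      rw [hb0t0] at h
      exact h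
    rw [hb0' v hvD]
    rcases hs : st v with c' | ⟨E, m⟩
    · refine ⟨Sum.inl c', fun E m h => (by cases h), fun _ => Or.inl ⟨c', rfl, rfl⟩,
        Eventually.of_forall fun n x _ h => h ?_⟩
      exact Finset.mem_union_left _ (Finset.mem_filter.2 ⟨hvD, c', hs⟩)
    · have hm : m ≠ 0 := fun h => hvT (Finset.mem_filter.2 ⟨hvD, E, by rw [hs, h]⟩)
      have h1 := hres v hvD E m hs
      refine ⟨Sum.inr (E, m - 1), fun E' m' h => ?_, fun _ => ?_,
        Eventually.of_forall fun n x h _ => h⟩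
      · cases h
        exact ⟨h1.1, by rw [show f + 1 + (m - 1) = f + m by omega]; exact h1.2⟩
      · exact Or.inr (Relation.TransGen.single (Sum.Lex.inr (Prod.Lex.right _ (by omega))))
  choose! st' h1 h2 h3 using key
  refine ⟨st', ⟨h1, ?_⟩, fun v hv => h2 v (hsub v hv) hv⟩
  filter_upwards [hc, (eventually_all_finset _).2 h3] with n ⟨L, h4, h5⟩ h6
  refine ⟨L, ?_, fun v hv => ⟨(h5 v hv).1, h6 v hv _ (h5 v hv).2.1 (h5 v hv).2.2⟩⟩
  rw [h4]
  beta_reduce
  rw [if_neg ht1T0, hb1N _ (mem_dom_succ.2 (Or.inl rfl)) ht1T, hb0t1]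

end Pool.Agent.MP_aa180b_lc.H22
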