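import Pool.Agent.MP_aa180b_lc.H22.Clone

/-! Limit cuts and the tuple lemma. -/

set_option autoImplicit false

namespace Pool.Agent.MP_aa180b_lc.H22

open Filter Function

variable {ι : Type} [DecidableEq ι]

namespace Clone

/-- the cut below `E` -/
def Lo (C : Clone ι) (E x : ℕ → ℕ) : Prop := C.Ns x ∧ ∀ᶠ n in atTop, x (n + 1) ≤ E n

/-- limit points -/
def Lim (C : Clone ι) (E : ℕ → ℕ) : Prop :=
  C.Ns E ∧ NonStd E ∧ ∀ x, C.Lo E x → C.Lo E fun n => x (n + 1)

/-- the cut just above the level of `E` -/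
def Hi (C : Clone ι) (E y : ℕ → ℕ) : Prop :=
  C.Ns y ∧ ∀ b, C.Ns b → ¬ C.Lo E b → ∀ᶠ n in atTop, y n < b (n + 1)

variable {C : Clone ι} {E : ℕ → ℕ}

theorem lt_of_not_lo (hE : C.Ns E) {b : ℕ → ℕ} (hb : C.Ns b) (h : ¬ C.Lo E b) :
    ∀ᶠ n in atTop, E n < b (n + 1) :=
  (hb.sh.le_or_lt hE).resolve_left fun h1 => h ⟨hb, h1⟩

theorem Lim.not_lo (hE : C.Lim E) : ¬ C.Lo E E := fun h =>
  ev_false (by filter_upwards [h.2, hE.2.1] with n h1 h2; omega)

theorem Lim.cut (hE : C.Lim E) : C.Cut (C.Lo E) where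
  ns h := h.1
  down ha hb h := ⟨ha, by filter_upwards [hb.2, ev_succ h] with n h1 h2 using h2.trans h1⟩
  zero := ⟨ns_const 0, by simp⟩
  succ {a} ha := by
    refine ⟨ha.1.succ, ?_⟩
    rcases ha.1.std_or with ⟨k, h⟩ | h
    · filter_upwards [ev_succ h, hE.2.1.ge (k + 1)] with n h1 h2; omega
    · filter_upwards [ev_succ h, (hE.2.2 a ha).2] with n h1 h2; omega
  proper := ⟨E, hE.1, hE.not_lo⟩

theorem Lim.cutHi (hE : C.Lim E) : C.Cut (C.Hi E) where
  ns h := h.1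
  down ha hb h := ⟨ha, fun b h1 h2 => by
    filter_upwards [hb.2 b h1 h2, h] with n h3 h4; omega⟩
  zero := ⟨ns_const 0, fun b h1 h2 => by
    filter_upwards [lt_of_not_lo hE.1 h1 h2] with n h3; omega⟩
  succ {a} ha := ⟨ha.1.succ, fun b h1 h2 => by
    filter_upwards [ha.2 _ h1.pred (hE.cut.pred h1 h2)] with n h3; omega⟩
  proper := ⟨_, hE.1.sh, fun h =>
    ev_false (by filter_upwards [h.2 E hE.1 hE.not_lo] with n h1; omega)⟩

theorem ladder {x : ℕ → ℕ} (hx : C.Ns x) (hx' : NonStd x) :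
    ∃ E m, C.Lim E ∧ (∀ᶠ n in atTop, E n ≤ x n) ∧ ∀ᶠ n in atTop, x n ≤ E (n + m) := by
  induction x using C.wf_bel.induction with
  | _ x ih =>
    by_cases h : C.Lim x
    · exact ⟨x, 0, h, by simp, by simp⟩
    · have : ∃ c, C.Lo x c ∧ ¬ C.Lo x fun n => c (n + 1) := by
        by_contra h1
        exact h ⟨hx, hx', fun c hc => by_contra fun h2 => h1 ⟨c, hc, h2⟩⟩
      obtain ⟨c, hc, hc'⟩ := this
      have h1 := lt_of_not_lo hx hc.1.sh hc'
      have h2 : NonStd c := by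
        refine hc.1.std_or.resolve_left ?_
        rintro ⟨k, hk⟩
        exact ev_false (by
          filter_upwards [h1, ev_succ (ev_succ hk), hx'.ge k] with n h3 h4 h5; omega)
      obtain ⟨E, m, hE, h3, h4⟩ := ih c ⟨hc.1, hx, h2, hc.2⟩ hc.1 h2
      refine ⟨E, m + 2, hE, ?_, ?_⟩
      · filter_upwards [h3, h2, hc.2] with n h5 h6 h7; omega
      · filter_upwards [h1, ev_succ (ev_succ h4)] with n h5 h6
        rw [show n + (m + 2) = n + 1 + 1 + m by omega]; omega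

/-- `P` is an up-set depending on the coordinates in `s` only -/
def MonoOn (s : Finset ι) (P : ℕ → (ι → ℕ) → Prop) : Prop :=
  ∀ n e e', (∀ i ∈ s, e i ≤ e' i) → P n e → P n e'

/-- `Z` is antitone and depends on the coordinates in `s` only -/
def AntiOn (s : Finset ι) (Z : ℕ → (ι → ℕ) → ℕ) : Prop :=
  ∀ n e e', (∀ i ∈ s, e i ≤ e' i) → Z n e' ≤ Z n e

omit [DecidableEq ι] in
theorem AntiOn.eq {s : Finset ι} {Z : ℕ → (ι → ℕ) → ℕ} (h : AntiOn s Z) (n : ℕ) {e e' : ι → ℕ}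
    (he : ∀ i ∈ s, e i = e' i) : Z n e = Z n e' :=
  le_antisymm (h n e' e fun i hi => (he i hi).ge) (h n e e' fun i hi => (he i hi).le)

theorem AntiOn.ns {s : Finset ι} {Z : ℕ → (ι → ℕ) → ℕ} (h : AntiOn s Z) (hZ : C.Nm Z)
    {a : ι → ℕ → ℕ} (ha : ∀ i ∈ s, C.Ns (a i)) : C.Ns fun n => Z n fun i => a i n :=
  Nm.congr (Nm.fill hZ s a ha) fun n _ => h.eq n fun i hi => by simp [hi]

theorem AntiOn.upd {s : Finset ι} {Z : ℕ → (ι → ℕ) → ℕ} (h : AntiOn s Z) (i : ι) (a : ℕ → ℕ) :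
    AntiOn (s.erase i) fun n e => Z n (update e i (a n)) := by
  intro n e e' he
  refine h n _ _ fun l hl => ?_
  by_cases hli : l = i
  · subst hli; simp
  · simp only [update_of_ne hli]
    exact he l (Finset.mem_erase.2 ⟨hli, hl⟩)

theorem MonoOn.upd {s : Finset ι} {P : ℕ → (ι → ℕ) → Prop} (h : MonoOn s P) (i : ι) (a : ℕ → ℕ) :
    MonoOn (s.erase i) fun n e => P n (update e i (a n)) := by
  intro n e e' he
  refine h n _ _ fun l hl => ?_
  by_cases hli : l = i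
  · subst hli; simp
  · simp only [update_of_ne hli]
    exact he l (Finset.mem_erase.2 ⟨hli, hl⟩)

theorem upd_tuple (a : ι → ℕ → ℕ) (i : ι) (b : ℕ → ℕ) (n : ℕ) :
    update (fun l => a l n) i (b n) = fun l => update a i b l n := by
  funext l
  by_cases hli : l = i
  · subst hli; simp
  · simp [update_of_ne hli]

/-- the statement of the tuple lemma -/
def TLs (C : Clone ι) (E : ι → ℕ → ℕ) (s : Finset ι) : Prop :=
  ∀ P, C.NmP P → MonoOn s P →
    (∀ b : ι → ℕ → ℕ, (∀ i ∈ s, C.Ns (b i) ∧ ¬ C.Lo (E i) (b i)) →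
      ∀ᶠ n in atTop, P n fun i => b i n) →
    ∃ a : ι → ℕ → ℕ, (∀ i ∈ s, C.Lo (E i) (a i)) ∧ ∀ᶠ n in atTop, P n fun i => a i n

theorem tie_single {E : ι → ℕ → ℕ} {T : ℕ → ℕ} (hT : C.Lim T) {i : ι} (hE : C.Lim (E i))
    {Z : ℕ → (ι → ℕ) → ℕ} (hZ : C.Nm Z) (hA : AntiOn {i} Z)
    (ha : ∀ a : ι → ℕ → ℕ, (∀ l ∈ ({i} : Finset ι), C.Lo (E l) (a l)) →
      ¬ C.Lo T fun n => Z n fun l => a l n)
    (hb : ∀ g, C.Ns g → ¬ C.Lo T g → ∃ a : ι → ℕ → ℕ, (∀ l ∈ ({i} : Finset ι), C.Lo (E l) (a l)) ∧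
      ∀ᶠ n in atTop, Z n (fun l => a l n) ≤ g n) : C.Tie (C.Lo (E i)) (C.Lo T) := by
  have h1 : C.Nm1 fun n x => Z n fun _ => x := fun G hG =>
    Nm.congr (C.upd i hZ hG) fun n e => hA.eq n (by simp)
  refine ⟨_, h1, fun n x y hxy => hA n _ _ fun _ _ => hxy, fun a h2 => ⟨fun h3 => ?_, fun h3 => ?_⟩⟩
  · exact ha (fun _ => a) (by simpa using h3)
  · by_contra h4
    have h5 := h1.app h2
    obtain ⟨a', h6, h7⟩ := hb _ h5.pred (hT.cut.pred h5 h3)
    refine ev_false ?_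
    filter_upwards [h7, hT.cut.pos h5 h3, hE.cut.lt (h6 i (by simp)) h2 h4] with n h8 h9 h10
    have := hA n (fun l => a' l n) (fun _ => a n) (by simpa using h10.le)
    omega

theorem tie_hi {E : ι → ℕ → ℕ} {T : ℕ → ℕ} (hT : C.Lim T) {s : Finset ι} {i : ι} (hi : i ∈ s)
    (hE : ∀ l ∈ s, C.Lim (E l)) (hTL : C.TLs E (s.erase i))
    {Z : ℕ → (ι → ℕ) → ℕ} (hZ : C.Nm Z) (hA : AntiOn s Z)
    (hb : ∀ g, C.Ns g → ¬ C.Lo T g → ∃ a : ι → ℕ → ℕ, (∀ l ∈ s, C.Lo (E l) (a l)) ∧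
      ∀ᶠ n in atTop, Z n (fun l => a l n) ≤ g n)
    (hc : ∀ x, C.Lo (E i) x → ∃ g, C.Ns g ∧ ¬ C.Lo T g ∧ ∀ a : ι → ℕ → ℕ,
      (∀ l ∈ s.erase i, C.Lo (E l) (a l)) →
        ¬ ∀ᶠ n in atTop, Z n (update (fun l => a l n) i (x n)) ≤ g n) :
    C.Tie (C.Lo (E i)) (C.Hi T) := by
  have h1 : C.Nm1 fun n x => Z (n + 1) fun l => if l = i then x else E l n := by
    intro G hG
    have h2 := Nm.fill (C.shift hZ) (s.erase i) E fun l hl => (hE l (Finset.mem_of_mem_erase hl)).1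
    refine Nm.congr (C.upd i h2 hG) fun n e => hA.eq _ fun l hl => ?_
    by_cases hli : l = i
    · subst hli; simp
    · simp [hli, hl]
  refine ⟨_, h1, fun n x y hxy => hA _ _ _ fun l _ => ?_, fun a h2 => ⟨fun h3 h4 => ?_, fun h3 => ?_⟩⟩
  · split_ifs
    exacts [hxy, le_rfl]
  · obtain ⟨g, hg, hg', h5⟩ := hc a h3
    have h6 : ∃ b : ι → ℕ → ℕ, (∀ l ∈ s.erase i, C.Ns (b l) ∧ ¬ C.Lo (E l) (b l)) ∧
        ¬ ∀ᶠ n in atTop, Z n (update (fun l => b l n) i (a n)) ≤ g n := by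
      by_contra h6
      obtain ⟨a', h7, h8⟩ := hTL (fun n e => Z n (update e i (a n)) ≤ g n)
        (NmP.le (C.upd i hZ h2) hg)
        (fun n e e' he h => ((hA.upd i a) n e e' he).trans h)
        (fun b hb' => by_contra fun h => h6 ⟨b, hb', h⟩)
      exact h5 a' h7 h8
    obtain ⟨b, h7, h8⟩ := h6
    have h9 := (((hA.upd i a).ns (C.upd i hZ h2) fun l hl => (h7 l hl).1).le_or_lt hg).resolve_left h8
    have h10 : ∀ᶠ n in atTop, ∀ l ∈ s.erase i, E l n < b l (n + 1) :=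
      (eventually_all_finset _).2 fun l hl =>
        lt_of_not_lo (hE l (Finset.mem_of_mem_erase hl)).1 (h7 l hl).1 (h7 l hl).2
    refine ev_false ?_
    filter_upwards [ev_succ h9, h10, h2.mono, h4.2 g hg hg'] with n h11 h12 h13 h14
    have := hA (n + 1) (fun l => if l = i then a n else E l n)
      (update (fun l => b l (n + 1)) i (a (n + 1))) fun l hl => by
        by_cases hli : l = i
        · subst hli; simpa using h13
        · simpa [hli] using (h12 l (Finset.mem_erase.2 ⟨hli, hl⟩)).le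
    omega
  · by_contra h4
    refine h3 ⟨h1.app h2, fun g hg hg' => ?_⟩
    obtain ⟨a', h5, h6⟩ := hb _ hg.pred (hT.cut.pred hg hg')
    have h7 : ∀ᶠ n in atTop, ∀ l ∈ s, a' l (n + 1) ≤ E l n :=
      (eventually_all_finset _).2 fun l hl => (h5 l hl).2
    filter_upwards [ev_succ h6, h7, ev_succ (hT.cut.pos hg hg'),
      (hE i hi).cut.lt ((hE i hi).2.2 _ (h5 i hi)) h2 h4] with n h8 h9 h10 h11
    have := hA (n + 1) (fun l => a' l (n + 1)) (fun l => if l = i then a n else E l n)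
      fun l hl => by
        by_cases hli : l = i
        · subst hli; simpa using h11.le
        · simpa [hli] using h9 l hl
    omega

variable [Nontrivial ι]

theorem sub_false {E : ι → ℕ → ℕ} {T : ℕ → ℕ} (hT : C.Lim T) (s : Finset ι)
    (hE : ∀ l ∈ s, C.Lim (E l)) (hTL : ∀ u ⊆ s, C.TLs E u)
    (hiso : ∀ i ∈ s, ∀ j ∈ s, i ≠ j → ¬ C.Iso (C.Lo (E i)) (C.Lo (E j)))
    (htie : ∀ i ∈ s, ¬ C.Tie (C.Lo (E i)) (C.Lo T))
    {Z : ℕ → (ι → ℕ) → ℕ} (hZ : C.Nm Z) (hA : AntiOn s Z)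
    (ha : ∀ a : ι → ℕ → ℕ, (∀ l ∈ s, C.Lo (E l) (a l)) → ¬ C.Lo T fun n => Z n fun l => a l n)
    (hb : ∀ g, C.Ns g → ¬ C.Lo T g → ∃ a : ι → ℕ → ℕ, (∀ l ∈ s, C.Lo (E l) (a l)) ∧
      ∀ᶠ n in atTop, Z n (fun l => a l n) ≤ g n) : False := by
  induction s using Finset.strongInduction generalizing Z with
  | _ s ih =>
    by_cases hc : ∃ i ∈ s, ∃ x, C.Lo (E i) x ∧ ∀ g, C.Ns g → ¬ C.Lo T g → ∃ a : ι → ℕ → ℕ,
        (∀ l ∈ s.erase i, C.Lo (E l) (a l)) ∧
          ∀ᶠ n in atTop, Z n (update (fun l => a l n) i (x n)) ≤ g n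
    · obtain ⟨i, hi, x, hx, hc⟩ := hc
      have hs := Finset.erase_subset i s
      refine ih (s.erase i) (Finset.erase_ssubset hi) (fun l hl => hE l (hs hl))
        (fun u hu => hTL u (hu.trans hs)) (fun l hl j hj => hiso l (hs hl) j (hs hj))
        (fun l hl => htie l (hs hl)) (C.upd i hZ hx.1) (hA.upd i x) (fun a h1 => ?_) hc
      simp only [upd_tuple]
      refine ha _ fun l hl => ?_
      by_cases hli : l = i
      · subst hli; simpa using hx
      · simpa [update_of_ne hli] using h1 l (Finset.mem_erase.2 ⟨hli, hl⟩)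
    have hd : ∀ i ∈ s, C.Tie (C.Lo (E i)) (C.Hi T) := by
      intro i hi
      refine tie_hi hT hi hE (hTL _ (Finset.erase_subset i s)) hZ hA hb fun x hx => ?_
      by_contra h1
      refine hc ⟨i, hi, x, hx, fun g hg hg' => ?_⟩
      by_contra h2
      exact h1 ⟨g, hg, hg', fun a h3 h4 => h2 ⟨a, h3, h4⟩⟩
    rcases s.eq_empty_or_nonempty with rfl | ⟨i, hi⟩
    · have h1 := hA.ns hZ (a := fun _ _ => 0) (by simp)
      have h2 := ha (fun _ _ => 0) (by simp)
      obtain ⟨a, -, h3⟩ := hb _ h1.pred (hT.cut.pred h1 h2)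
      refine ev_false ?_
      filter_upwards [h3, hT.cut.pos h1 h2] with n h4 h5
      have := hA.eq n (e := fun l => a l n) (e' := fun _ => 0) (by simp)
      omega
    by_cases hj : ∃ j ∈ s, j ≠ i
    · obtain ⟨j, hj, hji⟩ := hj
      exact hiso j hj i hi hji ((hd j hj).tie ((hd i hi).symm (hE i hi).cut hT.cutHi))
    · obtain rfl : s = {i} := by
        refine Finset.eq_singleton_iff_unique_mem.2 ⟨hi, fun j h1 => ?_⟩
        by_contra h2
        exact hj ⟨j, h1, h2⟩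
      exact htie i hi (tie_single hT (hE i hi) hZ hA ha hb)

/-- the tuple lemma -/
theorem tuple {E : ι → ℕ → ℕ} (s : Finset ι) (hE : ∀ l ∈ s, C.Lim (E l))
    (htie : ∀ i ∈ s, ∀ j ∈ s, ¬ C.Tie (C.Lo (E i)) (C.Lo (E j))) : C.TLs E s := by
  induction s using Finset.strongInduction with
  | _ s ih =>
    have ih' : ∀ t ∈ s, ∀ u ⊆ s.erase t, C.TLs E u := by
      intro t ht u hu
      have h1 : u ⊂ s := lt_of_le_of_lt hu (Finset.erase_ssubset ht)
      exact ih u h1 (fun l hl => hE l (h1.1 hl)) fun i hi j hj => htie i (h1.1 hi) j (h1.1 hj)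
    intro P hP hm hfull
    by_cases hiso : ∃ i ∈ s, ∃ j ∈ s, i ≠ j ∧ C.Iso (C.Lo (E i)) (C.Lo (E j))
    · obtain ⟨i, hi, j, hj, hij, f, h1, h2, h3⟩ := hiso
      have hi' : i ∈ s.erase j := Finset.mem_erase.2 ⟨hij, hi⟩
      obtain ⟨a, h4, h5⟩ := ih' j hj _ le_rfl (fun n e => P n (update e j (f n (e i))))
        (hP.upd j (h1 _ (C.var i)))
        (fun n e e' he => hm n _ _ fun l hl => by
          by_cases hlj : l = j
          · subst hlj; simpa using h2 n (he i hi')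
          · simpa [update_of_ne hlj] using he l (Finset.mem_erase.2 ⟨hlj, hl⟩))
        (fun b hb => by
          have := hfull (update b j fun n => f n (b i n)) fun l hl => by
            by_cases hlj : l = j
            · subst hlj
              simp only [update_self]
              exact ⟨h1.app (hb i hi').1, mt (h3 _ (hb i hi').1).2 (hb i hi').2⟩
            · simpa [update_of_ne hlj] using hb l (Finset.mem_erase.2 ⟨hlj, hl⟩)
          simpa only [← upd_tuple] using this)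
      refine ⟨update a j fun n => f n (a i n), fun l hl => ?_, by simpa only [← upd_tuple] using h5⟩
      by_cases hlj : l = j
      · subst hlj
        simp only [update_self]
        exact (h3 _ (h4 i hi').1).1 (h4 i hi')
      · simpa [update_of_ne hlj] using h4 l (Finset.mem_erase.2 ⟨hlj, hl⟩)
    rcases s.eq_empty_or_nonempty with rfl | ⟨t, ht⟩
    · exact ⟨fun _ _ => 0, by simp, hfull (fun _ _ => 0) (by simp)⟩
    by_contra hno
    have hs := Finset.erase_subset t s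
    have hT := hE t ht
    refine sub_false hT (s.erase t) (fun l hl => hE l (hs hl)) (ih' t ht)
      (fun i hi j hj hij h => hiso ⟨i, hs hi, j, hs hj, hij, h⟩) (fun i hi => htie i (hs hi) t ht)
      (hP.mu t hT.1) (fun n e e' he => tmin_anti _ fun v => hm.upd t (fun _ => v) n e e' he)
      (fun a ha h1 => ?_) fun g hg hg' => ?_
    · have h2 := hT.cut.min_in (P := fun n v => P n (update (fun l => a l n) t v)) hT.1 hT.not_lo h1
      refine hno ⟨update a t fun n => tmin (fun v => P n (update (fun l => a l n) t v)) (E t n),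
        fun l hl => ?_, by simpa only [← upd_tuple] using h2⟩
      by_cases hlt : l = t
      · subst hlt; simpa using h1
      · simpa [update_of_ne hlt] using ha l (Finset.mem_erase.2 ⟨hlt, hl⟩)
    · obtain ⟨a, h4, h5⟩ := ih' t ht _ le_rfl (fun n e => P n (update e t (g n))) (hP.upd t hg)
        (hm.upd t g) fun b hb => by
          have := hfull (update b t g) fun l hl => by
            by_cases hlt : l = t
            · subst hlt; simpa using ⟨hg, hg'⟩
            · simpa [update_of_ne hlt] using hb l (Finset.mem_erase.2 ⟨hlt, hl⟩)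
          simpa only [← upd_tuple] using this
      refine ⟨a, h4, ?_⟩
      filter_upwards [h5] with n hn using tmin_le_of _ hn

open Classical in
/-- the sign of a limit point -/
noncomputable def sg (C : Clone ι) (E : ℕ → ℕ) : ℕ :=
  if C.Iso (C.rep (C.Lo E)) (C.Lo E) then 0 else 1

omit [Nontrivial ι] in
theorem sg_lt (E : ℕ → ℕ) : C.sg E < 2 := by
  unfold sg; split_ifs <;> omega

theorem not_tie_of_sg {E E' : ℕ → ℕ} (hE : C.Lim E) (hE' : C.Lim E') (h : C.sg E = C.sg E') :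
    ¬ C.Tie (C.Lo E) (C.Lo E') := by
  intro h1
  apply h1.sign hE.cut hE'.cut
  unfold sg at h
  by_cases h2 : C.Iso (C.rep (C.Lo E)) (C.Lo E) <;>
    by_cases h3 : C.Iso (C.rep (C.Lo E')) (C.Lo E') <;> simp_all

end Clone

end Pool.Agent.MP_aa180b_lc.H22
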